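import Pool.Agent.Helper130.Odell.KK

set_option autoImplicit false

namespace Pool.Agent.Helper130.Odell

theorem pair_filter (u : ℕ →₀ ℝ) (A : ℕ) (β : ℕ → ℝ) (hβ : ∀ n, β n ≠ 0 → A ≤ n) :
    pair (u.filter (fun n => A ≤ n)) β = pair u β := by
  rw [pair_eq_sum (s := u.support) (by rw [Finsupp.support_filter]; exact Finset.filter_subset _ _) β,
    pair_eq_sum (s := u.support) (Finset.Subset.refl _) β]
  refine Finset.sum_congr rfl fun n _ => ?_
  by_cases h : β n = 0
  · simp [h]
  · rw [Finsupp.filter_apply, if_pos (hβ n h)]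

theorem mem_support_of_pair_ne {w : ℕ →₀ ℝ} {β : ℕ → ℝ} (h : pair w β ≠ 0) :
    ∃ n ∈ w.support, β n ≠ 0 := by
  by_contra hcon
  push Not at hcon
  apply h
  rw [pair_eq_sum (s := w.support) (Finset.Subset.refl _) β]
  exact Finset.sum_eq_zero fun n hn => by rw [hcon n hn, mul_zero]

theorem pair_nonneg {w : ℕ →₀ ℝ} (hw : KK w) {β : ℕ → ℝ} (hβ : ∀ n, 0 ≤ β n) : 0 ≤ pair w β := by
  rw [pair_eq_sum (s := w.support) (Finset.Subset.refl _) β]
  exact Finset.sum_nonneg fun n _ => mul_nonneg (hw.nonneg n) (hβ n)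

/-- the bound for a good index -/
theorem good_bound (β : ℕ → ℝ) (A m k : ℕ) (hA : ∀ n, β n ≠ 0 → A ≤ n)
    (hle : ∀ w, KK w → pair w β ≤ 1) (w : Fin k → (ℕ →₀ ℝ)) (hw : ∀ i, KK (w i))
    (hd : ∀ i j, i ≠ j → Disjoint (w i).support (w j).support)
    (hm : ∀ j, pair (w j) β ≠ 0 → ∃ n ∈ (w j).support, n ≤ m ∧ n < A) (hk : k * m ≤ A) :
    ∑ j, pair (w j) β ≤ 1 := by
  classical
  have hdec : ∀ j, pair (w j) β ≠ 0 → ∃ (q : ℕ) (u : Fin q → (ℕ →₀ ℝ)), q ≤ m ∧ (∀ l, KK (u l)) ∧
      (∀ l l', l ≠ l' → Disjoint (u l).support (u l').support) ∧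
      w j = (1 / 2 : ℝ) • ∑ l, u l ∧ (∀ l, (u l).support ⊆ (w j).support) := by
    intro j hj
    obtain ⟨n1, hn1, hn1m, hn1A⟩ := hm j hj
    generalize hv : w j = v at *
    have hKv : KK v := hv ▸ hw j
    cases hKv with
    | single n =>
      exfalso
      obtain ⟨n2, hn2, hβ2⟩ := mem_support_of_pair_ne hj
      have h1 : n1 = n := by
        by_contra hne
        rw [Finsupp.mem_support_iff, Finsupp.single_apply] at hn1
        simp [Ne.symm hne] at hn1
      have h2 : n2 = n := by
        by_contra hne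
        rw [Finsupp.mem_support_iff, Finsupp.single_apply] at hn2
        simp [Ne.symm hne] at hn2
      have := hA n2 hβ2
      omega
    | node q u hu hud hus =>
      have hsub : ∀ l, (u l).support ⊆ ((1 / 2 : ℝ) • ∑ l, u l).support := by
        intro l n hn
        rw [Finsupp.mem_support_iff] at hn ⊢
        rw [Finsupp.smul_apply, Finsupp.finsetSum_apply, smul_eq_mul]
        have h1 : 0 < u l n := lt_of_le_of_ne ((hu l).nonneg n) (Ne.symm hn)
        have h2 : u l n ≤ ∑ i, u i n :=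
          Finset.single_le_sum (f := fun i => u i n) (fun i _ => (hu i).nonneg n) (Finset.mem_univ l)
        have h3 : 0 < (1 / 2 : ℝ) * ∑ i, u i n := by linarith
        exact h3.ne'
      refine ⟨q, u, ?_, hu, hud, rfl, hsub⟩
      rw [Finsupp.mem_support_iff, Finsupp.smul_apply, Finsupp.finsetSum_apply, smul_eq_mul] at hn1
      have h1 : ∑ i, u i n1 ≠ 0 := fun h => hn1 (by rw [h, mul_zero])
      obtain ⟨l, -, hl⟩ := Finset.exists_ne_zero_of_sum_ne_zero h1
      exact (hus l n1 (Finsupp.mem_support_iff.mpr hl)).trans hn1m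
  choose q u hq hKu hdu hwu hsub using hdec
  let J := {j : Fin k // pair (w j) β ≠ 0}
  let ι := Σ j : J, Fin (q j.1 j.2)
  let v : ι → (ℕ →₀ ℝ) := fun p => (u p.1.1 p.1.2 p.2).filter (fun n => A ≤ n)
  have hsupp_v : ∀ p : ι, (v p).support ⊆ (u p.1.1 p.1.2 p.2).support := by
    intro p
    simp only [v]
    rw [Finsupp.support_filter]
    exact Finset.filter_subset _ _
  have hcard : Fintype.card ι ≤ A := by
    rw [Fintype.card_sigma]
    calc ∑ j : J, Fintype.card (Fin (q j.1 j.2)) ≤ ∑ _j : J, m := by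
          refine Finset.sum_le_sum fun j _ => ?_
          rw [Fintype.card_fin]; exact hq _ _
      _ = Fintype.card J * m := by rw [Finset.sum_const, Finset.card_univ, smul_eq_mul]
      _ ≤ k * m := by
          refine Nat.mul_le_mul_right m ?_
          calc Fintype.card J ≤ Fintype.card (Fin k) := Fintype.card_subtype_le _
            _ = k := Fintype.card_fin k
      _ ≤ A := hk
  have hKv : KK ((1 / 2 : ℝ) • ∑ p, v p) := by
    refine KK.sum A hcard v (fun p => (hKu _ _ _).filter _) ?_ ?_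
    · rintro ⟨j, l⟩ ⟨j', l'⟩ hne
      by_cases hjj : j = j'
      · subst hjj
        have hll : l ≠ l' := fun h => hne (by rw [h])
        exact (hdu j.1 j.2 l l' hll).mono (hsupp_v _) (hsupp_v _)
      · have hjj' : j.1 ≠ j'.1 := fun h => hjj (Subtype.ext h)
        exact (hd _ _ hjj').mono ((hsupp_v _).trans (hsub _ _ _)) ((hsupp_v _).trans (hsub _ _ _))
    · intro p n hn
      simp only [v] at hn
      rw [Finsupp.support_filter] at hn
      exact (Finset.mem_filter.mp hn).2
  have hval : ∑ j, pair (w j) β = pair ((1 / 2 : ℝ) • ∑ p, v p) β := by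
    rw [pair_smul_left, pair_sum_left, Fintype.sum_sigma]
    have h1 : ∀ j : J, ∑ l, pair (v ⟨j, l⟩) β = 2 * pair (w j.1) β := by
      intro j
      conv_rhs => rw [hwu j.1 j.2, pair_smul_left, pair_sum_left]
      have : ∀ l, pair (v ⟨j, l⟩) β = pair (u j.1 j.2 l) β := fun l => pair_filter _ A β hA
      simp only [this]
      ring
    simp only [h1]
    rw [← Finset.mul_sum]
    have h2 : ∑ j : J, pair (w j.1) β = ∑ j, pair (w j) β := by
      rw [← Finset.sum_filter_ne_zero (s := Finset.univ) (f := fun j => pair (w j) β)]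
      exact (Finset.sum_subtype (Finset.univ.filter (fun j => pair (w j) β ≠ 0)) (by simp)
        (fun j => pair (w j) β)).symm
    rw [h2]; ring
  rw [hval]
  exact hle _ hKv

/-- Lemma J. Positive blocks `β 0, β 1, …` with supports in `[a s, N s]`, very sparse. -/
theorem lemmaJ (β : ℕ → ℕ → ℝ) (a N : ℕ → ℕ) (h0 : ∀ s n, 0 ≤ β s n)
    (hsupp : ∀ s n, β s n ≠ 0 → a s ≤ n ∧ n ≤ N s) (hmono : ∀ s, N s ≤ N (s + 1))
    (hsparse : ∀ s, N s * N s < a (s + 1)) (hle : ∀ s w, KK w → pair w (β s) ≤ 1)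
    (r : ℕ) (hr : 0 < r) (w : ℕ →₀ ℝ) (hw : KK w) :
    pair w (fun n => β 0 n + (1 / r : ℝ) * ∑ s ∈ Finset.range r, β (s + 1) n) ≤
      3 / 2 + (N 0 : ℝ) ^ 2 / r := by
  classical
  have hNmono : Monotone N := monotone_nat_of_le_succ hmono
  have hr' : (0 : ℝ) < r := by exact_mod_cast hr
  have hNa : ∀ s t, s < t → N s < a t := by
    intro s t hst
    obtain ⟨t', rfl⟩ : ∃ t', t = t' + 1 := ⟨t - 1, by omega⟩
    have h1 : N s ≤ N t' := hNmono (by omega)
    have h2 : N t' ≤ N t' * N t' := Nat.le_mul_self _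
    exact lt_of_le_of_lt (h1.trans h2) (hsparse t')
  have hexp : pair w (fun n => β 0 n + (1 / r : ℝ) * ∑ s ∈ Finset.range r, β (s + 1) n) =
      pair w (β 0) + (1 / r : ℝ) * ∑ s ∈ Finset.range r, pair w (β (s + 1)) := by
    rw [pair_add_right, pair_mul_right]
    congr 2
    have := pair_sum_right w (Finset.range r) (fun _ => (1 : ℝ)) (fun s => β (s + 1))
    simpa using this
  rw [hexp]
  have hpos : 0 ≤ (N 0 : ℝ) ^ 2 / r := by positivity
  have havg : (1 / r : ℝ) * ∑ s ∈ Finset.range r, pair w (β (s + 1)) ≤ 1 := by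
    have h1 : ∑ s ∈ Finset.range r, pair w (β (s + 1)) ≤ r := by
      calc ∑ s ∈ Finset.range r, pair w (β (s + 1)) ≤ ∑ _s ∈ Finset.range r, (1 : ℝ) :=
            Finset.sum_le_sum fun s _ => hle _ _ hw
        _ = r := by simp
    calc (1 / r : ℝ) * ∑ s ∈ Finset.range r, pair w (β (s + 1)) ≤ (1 / r : ℝ) * r :=
          mul_le_mul_of_nonneg_left h1 (by positivity)
      _ = 1 := by field_simp
  have hw0 := hle 0 w hw
  by_cases hz : pair w (β 0) = 0
  · rw [hz]; linarith
  · cases hw with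
    | single n =>
      obtain ⟨n2, hn2, hβ2⟩ := mem_support_of_pair_ne hz
      have h2 : n2 = n := by
        by_contra hne
        rw [Finsupp.mem_support_iff, Finsupp.single_apply] at hn2
        simp [Ne.symm hne] at hn2
      subst h2
      have h3 : ∑ s ∈ Finset.range r, pair (Finsupp.single n2 1) (β (s + 1)) = 0 := by
        refine Finset.sum_eq_zero fun s _ => ?_
        by_contra hne
        obtain ⟨n3, hn3, hβ3⟩ := mem_support_of_pair_ne hne
        have h4 : n3 = n2 := by
          by_contra hne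
          rw [Finsupp.mem_support_iff, Finsupp.single_apply] at hn3
          simp [Ne.symm hne] at hn3
        subst h4
        have h5 := (hsupp 0 n3 hβ2).2
        have h6 := (hsupp (s + 1) n3 hβ3).1
        have h7 := hNa 0 (s + 1) (Nat.succ_pos s)
        omega
      rw [h3]; linarith
    | node k u hu hud hus =>
      have hkN : k ≤ N 0 := by
        obtain ⟨n2, hn2, hβ2⟩ := mem_support_of_pair_ne hz
        rw [Finsupp.mem_support_iff, Finsupp.smul_apply, Finsupp.finsetSum_apply, smul_eq_mul] at hn2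
        have h1 : ∑ i, u i n2 ≠ 0 := fun h => hn2 (by rw [h, mul_zero])
        obtain ⟨l, -, hl⟩ := Finset.exists_ne_zero_of_sum_ne_zero h1
        exact (hus l n2 (Finsupp.mem_support_iff.mpr hl)).trans (hsupp 0 n2 hβ2).2
      let first : Fin k → ℕ := fun j =>
        if h : ∃ s, pair (u j) (β (s + 1)) ≠ 0 then Nat.find h else 0
      let Bad : Finset ℕ := Finset.univ.image first
      have hBad : Bad.card ≤ N 0 := by
        calc Bad.card ≤ (Finset.univ : Finset (Fin k)).card := Finset.card_image_le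
          _ = k := by simp
          _ ≤ N 0 := hkN
      have hF : ∀ s, ∑ j, pair (u j) (β (s + 1)) ≤ N 0 := by
        intro s
        calc ∑ j, pair (u j) (β (s + 1)) ≤ ∑ _j : Fin k, (1 : ℝ) :=
              Finset.sum_le_sum fun j _ => hle _ _ (hu j)
          _ = k := by simp
          _ ≤ N 0 := by exact_mod_cast hkN
      have hgood : ∀ s, s ∉ Bad → ∑ j, pair (u j) (β (s + 1)) ≤ 1 := by
        intro s hs
        refine good_bound (β (s + 1)) (a (s + 1)) (N s) k (fun n hn => (hsupp _ _ hn).1)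
          (hle (s + 1)) u hu hud ?_ ?_
        · intro j hj
          have hex : ∃ s, pair (u j) (β (s + 1)) ≠ 0 := ⟨s, hj⟩
          have hfirst : first j = Nat.find hex := by
            simp only [first]
            rw [dif_pos hex]
          have h1 : Nat.find hex ≤ s := Nat.find_min' hex hj
          have h2 : Nat.find hex ≠ s := by
            intro h
            apply hs
            exact Finset.mem_image.mpr ⟨j, Finset.mem_univ _, by rw [hfirst, h]⟩
          have h3 := Nat.find_spec hex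
          obtain ⟨n, hn, hβn⟩ := mem_support_of_pair_ne h3
          have h4 := (hsupp _ _ hβn).2
          have h5 : N (Nat.find hex + 1) ≤ N s := hNmono (by omega)
          have h6 := hNa s (s + 1) (Nat.lt_succ_self s)
          exact ⟨n, hn, h4.trans h5, by omega⟩
        · calc k * N s ≤ N 0 * N s := Nat.mul_le_mul_right _ hkN
            _ ≤ N s * N s := Nat.mul_le_mul_right _ (hNmono (Nat.zero_le s))
            _ ≤ a (s + 1) := (hsparse s).le
      have hval : ∀ s, pair ((1 / 2 : ℝ) • ∑ i, u i) (β (s + 1)) =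
          (1 / 2 : ℝ) * ∑ j, pair (u j) (β (s + 1)) := by
        intro s
        rw [pair_smul_left, pair_sum_left]
      have hsum : ∑ s ∈ Finset.range r, ∑ j, pair (u j) (β (s + 1)) ≤ r + (N 0 : ℝ) * N 0 := by
        calc ∑ s ∈ Finset.range r, ∑ j, pair (u j) (β (s + 1))
            ≤ ∑ s ∈ Finset.range r, (1 + if s ∈ Bad then (N 0 : ℝ) else 0) := by
              refine Finset.sum_le_sum fun s _ => ?_
              by_cases hs : s ∈ Bad
              · rw [if_pos hs]; linarith [hF s]
              · rw [if_neg hs]; linarith [hgood s hs]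
          _ = r + ∑ s ∈ Finset.range r, (if s ∈ Bad then (N 0 : ℝ) else 0) := by
              rw [Finset.sum_add_distrib]; simp
          _ ≤ r + (N 0 : ℝ) * N 0 := by
              have h1 : ∑ s ∈ Finset.range r, (if s ∈ Bad then (N 0 : ℝ) else 0) =
                  ((Finset.range r).filter (fun s => s ∈ Bad)).card * (N 0 : ℝ) := by
                rw [← Finset.sum_filter, Finset.sum_const, nsmul_eq_mul]
              rw [h1]
              have h2 : ((Finset.range r).filter (fun s => s ∈ Bad)).card ≤ N 0 := by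
                refine le_trans (Finset.card_le_card ?_) hBad
                intro s hs
                exact (Finset.mem_filter.mp hs).2
              have h3 : (((Finset.range r).filter (fun s => s ∈ Bad)).card : ℝ) ≤ N 0 := by
                exact_mod_cast h2
              have h4 : (0 : ℝ) ≤ N 0 := Nat.cast_nonneg _
              nlinarith
      simp only [hval]
      rw [← Finset.mul_sum]
      have h5 : (1 / r : ℝ) * ((1 / 2 : ℝ) * ∑ s ∈ Finset.range r, ∑ j, pair (u j) (β (s + 1))) ≤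
          (1 / r : ℝ) * ((1 / 2 : ℝ) * (r + (N 0 : ℝ) * N 0)) := by
        have : (0 : ℝ) ≤ 1 / r := by positivity
        gcongr
      have h6 : (1 / r : ℝ) * ((1 / 2 : ℝ) * (r + (N 0 : ℝ) * N 0)) =
          1 / 2 + (1 / 2) * ((N 0 : ℝ) ^ 2 / r) := by
        field_simp
      rw [h6] at h5
      linarith

/-- Core: no positive far-out sequence satisfies a uniform lower `ℓ¹` estimate on the positive cone. -/
theorem core (β : ℕ → ℕ → ℝ) (h0 : ∀ s n, 0 ≤ β s n) (hfin : ∀ s, ∃ M, ∀ n, M ≤ n → β s n = 0)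
    (hfar : ∀ m, ∃ s0, ∀ s, s0 ≤ s → ∀ n, n < m → β s n = 0)
    (hle : ∀ s w, KK w → pair w (β s) ≤ 1) (κ : ℝ) (hκ : 0 < κ)
    (hlow : ∀ (S : Finset ℕ) (c : ℕ → ℝ), (∀ s, 0 ≤ c s) →
      ∃ w, KK w ∧ κ * ∑ s ∈ S, c s ≤ pair w (fun n => ∑ s ∈ S, c s * β s n)) : False := by
  classical
  -- the lower constants
  let L : ℕ → Set ℝ := fun N => {t | ∀ (S : Finset ℕ) (c : ℕ → ℝ), (∀ s, 0 ≤ c s) → (∀ s ∈ S, N ≤ s) →
    ∃ w, KK w ∧ t * ∑ s ∈ S, c s ≤ pair w (fun n => ∑ s ∈ S, c s * β s n)}
  let U : Set ℝ := {t | ∃ N, t ∈ L N}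
  have hκU : κ ∈ U := ⟨0, fun S c hc _ => hlow S c hc⟩
  have hU1 : ∀ t ∈ U, t ≤ 1 := by
    rintro t ⟨N, ht⟩
    obtain ⟨w, hw, h⟩ := ht {N} (fun _ => 1) (fun _ => zero_le_one) (by simp)
    simp only [Finset.sum_singleton, mul_one, one_mul] at h
    exact h.trans (hle N w hw)
  have hbdd : BddAbove U := ⟨1, hU1⟩
  set lam := sSup U with hlam
  have hlam1 : lam ≤ 1 := csSup_le ⟨κ, hκU⟩ hU1
  have hlam0 : 0 < lam := lt_of_lt_of_le hκ (le_csSup hbdd hκU)
  obtain ⟨t, ⟨N, htN⟩, ht⟩ := exists_lt_of_lt_csSup (s := U) ⟨κ, hκU⟩ (b := 0.95 * lam) (by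
    rw [← hlam]; linarith)
  set t' := 1.05 * lam with ht'
  have ht'0 : 0 < t' := by positivity
  have ht'U : ∀ N', t' ∉ L N' := by
    intro N' h
    have := le_csSup hbdd (⟨N', h⟩ : t' ∈ U)
    rw [← hlam] at this
    linarith
  -- choice of almost extremal combinations
  have hpick : ∀ N', ∃ (S : Finset ℕ) (c : ℕ → ℝ), (∀ s, 0 ≤ c s) ∧ (∀ s, s ∉ S → c s = 0) ∧
      (∀ s ∈ S, N' ≤ s) ∧ ∑ s ∈ S, c s = 1 / t' ∧
      ∀ w, KK w → pair w (fun n => ∑ s ∈ S, c s * β s n) ≤ 1 := by
    intro N'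
    have h := ht'U N'
    simp only [L, Set.mem_ofPred_eq, not_forall, not_exists, not_and, not_le] at h
    obtain ⟨S, c, hc, hS, h⟩ := h
    have h1 := h 0 KK.zero
    rw [pair_zero_left] at h1
    have hsum : 0 < ∑ s ∈ S, c s := by
      by_contra hcon
      push Not at hcon
      have := mul_nonpos_of_nonneg_of_nonpos ht'0.le hcon
      linarith
    set T := t' * ∑ s ∈ S, c s with hT
    refine ⟨S, fun s => if s ∈ S then T⁻¹ * c s else 0, ?_, ?_, hS, ?_, ?_⟩
    · intro s
      by_cases hs : s ∈ S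
      · simp only [hs, if_true]
        exact mul_nonneg (inv_nonneg.mpr h1.le) (hc s)
      · simp only [hs, if_false]; exact le_rfl
    · intro s hs
      simp [hs]
    · rw [Finset.sum_congr rfl (g := fun s => T⁻¹ * c s) (fun s hs => by simp [hs]),
        ← Finset.mul_sum, hT]
      field_simp
    · intro w hw
      have h2 := h w hw
      have h3 : (fun n => ∑ s ∈ S, (if s ∈ S then T⁻¹ * c s else 0) * β s n) =
          fun n => T⁻¹ * ∑ s ∈ S, c s * β s n := by
        funext n
        rw [Finset.mul_sum]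
        refine Finset.sum_congr rfl fun s hs => ?_
        simp only [hs, if_true]; ring
      rw [h3, pair_mul_right]
      have h4 : T⁻¹ * pair w (fun n => ∑ s ∈ S, c s * β s n) ≤ T⁻¹ * T :=
        mul_le_mul_of_nonneg_left h2.le (inv_nonneg.mpr h1.le)
      rwa [inv_mul_cancel₀ h1.ne'] at h4
  choose S c hc0 hcS hSN hcsum hcle using hpick
  let g : ℕ → ℕ → ℝ := fun N' n => ∑ s ∈ S N', c N' s * β s n
  have hg0 : ∀ N' n, 0 ≤ g N' n := fun N' n =>
    Finset.sum_nonneg fun s _ => mul_nonneg (hc0 _ _) (h0 _ _)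
  choose M hM using hfin
  choose s0 hs0 using hfar
  let B : ℕ → ℕ := fun N' => (S N').sup M
  have hgB : ∀ N' n, g N' n ≠ 0 → n ≤ B N' := by
    intro N' n hn
    obtain ⟨s, hs, hne⟩ := Finset.exists_ne_zero_of_sum_ne_zero hn
    have h1 : β s n ≠ 0 := fun h => hne (by rw [h, mul_zero])
    have h2 : n < M s := by
      by_contra hcon
      push Not at hcon
      exact h1 (hM s n hcon)
    exact h2.le.trans (Finset.le_sup (f := M) hs)
  let far : ℕ → ℕ := fun m => max N (s0 m)
  have hgfar : ∀ m n, g (far m) n ≠ 0 → m ≤ n := by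
    intro m n hn
    obtain ⟨s, hs, hne⟩ := Finset.exists_ne_zero_of_sum_ne_zero hn
    have h1 : β s n ≠ 0 := fun h => hne (by rw [h, mul_zero])
    by_contra hcon
    push Not at hcon
    exact h1 (hs0 m s ((le_max_right _ _).trans (hSN _ s hs)) n hcon)
  let seq : ℕ → ℕ × ℕ := fun i => Nat.rec (N, B N)
    (fun _ p => (far (p.2 * p.2 + 1), max p.2 (B (far (p.2 * p.2 + 1))))) i
  have hseq : ∀ i, seq (i + 1) = (far ((seq i).2 * (seq i).2 + 1),
      max (seq i).2 (B (far ((seq i).2 * (seq i).2 + 1)))) := fun i => rfl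
  have hseq0 : seq 0 = (N, B N) := rfl
  have hBseq : ∀ i, B (seq i).1 ≤ (seq i).2 := by
    intro i
    cases i with
    | zero => exact le_rfl
    | succ i => rw [hseq i]; exact le_max_right _ _
  have hNseq : ∀ i, N ≤ (seq i).1 := by
    intro i
    cases i with
    | zero => exact le_rfl
    | succ i => rw [hseq i]; exact le_max_left _ _
  let a : ℕ → ℕ := fun i => Nat.casesOn i 0 (fun i => (seq i).2 * (seq i).2 + 1)
  obtain ⟨r, hr⟩ : ∃ r : ℕ, 10 * ((seq 0).2 : ℝ) ^ 2 < r := exists_nat_gt _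
  have hr0 : 0 < r := by
    have : (0 : ℝ) < r := lt_of_le_of_lt (by positivity) hr
    exact_mod_cast this
  have hr' : (0 : ℝ) < r := by exact_mod_cast hr0
  have hJ := lemmaJ (fun i => g (seq i).1) a (fun i => (seq i).2) (fun i n => hg0 _ _)
    (by
      intro i n hn
      refine ⟨?_, (hgB _ _ hn).trans (hBseq i)⟩
      cases i with
      | zero => exact Nat.zero_le _
      | succ i =>
        have h1 : (seq (i + 1)).1 = far ((seq i).2 * (seq i).2 + 1) := by rw [hseq i]
        rw [h1] at hn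
        exact hgfar _ _ hn)
    (by intro i; rw [hseq i]; exact le_max_left _ _)
    (by intro i; exact Nat.lt_succ_self _)
    (by intro i w hw; exact hcle _ w hw) r hr0
  -- the combination
  let wt : ℕ → ℝ := fun i => if i = 0 then 1 else 1 / r
  have hwt0 : ∀ i, 0 ≤ wt i := by
    intro i
    simp only [wt]
    split_ifs <;> positivity
  let St : Finset ℕ := (Finset.range (r + 1)).biUnion (fun i => S (seq i).1)
  let ct : ℕ → ℝ := fun s => ∑ i ∈ Finset.range (r + 1), wt i * c (seq i).1 s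
  have hsub : ∀ i ∈ Finset.range (r + 1), S (seq i).1 ⊆ St := by
    intro i hi s hs
    exact Finset.mem_biUnion.mpr ⟨i, hi, hs⟩
  have hext : ∀ i ∈ Finset.range (r + 1), ∀ f : ℕ → ℝ,
      ∑ s ∈ St, c (seq i).1 s * f s = ∑ s ∈ S (seq i).1, c (seq i).1 s * f s := by
    intro i hi f
    symm
    refine Finset.sum_subset (hsub i hi) fun s _ hs => ?_
    rw [hcS _ s hs, zero_mul]
  obtain ⟨w, hw, hlw⟩ := htN St ct
    (fun s => Finset.sum_nonneg fun i _ => mul_nonneg (hwt0 i) (hc0 _ _))
    (by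
      intro s hs
      obtain ⟨i, hi, hsi⟩ := Finset.mem_biUnion.mp hs
      exact (hNseq i).trans (hSN _ s hsi))
  have hct : ∀ f : ℕ → ℝ, ∑ s ∈ St, ct s * f s =
      ∑ i ∈ Finset.range (r + 1), wt i * ∑ s ∈ S (seq i).1, c (seq i).1 s * f s := by
    intro f
    simp only [ct, Finset.sum_mul]
    rw [Finset.sum_comm]
    refine Finset.sum_congr rfl fun i hi => ?_
    rw [← hext i hi f, Finset.mul_sum]
    exact Finset.sum_congr rfl fun s _ => by ring
  have hsplit : ∀ F : ℕ → ℝ, ∑ i ∈ Finset.range (r + 1), wt i * F i =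
      F 0 + (1 / r : ℝ) * ∑ i ∈ Finset.range r, F (i + 1) := by
    intro F
    rw [Finset.sum_range_succ', Finset.mul_sum, add_comm]
    congr 1
    · simp [wt]
    
  have htot : ∑ s ∈ St, ct s = 2 / t' := by
    have h1 := hct (fun _ => 1)
    simp only [mul_one] at h1
    rw [h1]
    simp only [hcsum]
    rw [hsplit (fun _ => 1 / t')]
    simp only [Finset.sum_const, Finset.card_range, nsmul_eq_mul]
    field_simp
    ring
  have hfun : (fun n => ∑ s ∈ St, ct s * β s n) =
      (fun n => g (seq 0).1 n + (1 / r : ℝ) * ∑ i ∈ Finset.range r, g (seq (i + 1)).1 n) := by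
    funext n
    rw [hct (fun s => β s n)]
    exact hsplit (fun i => g (seq i).1 n)
  rw [hfun, htot] at hlw
  have h1 := hlw.trans (hJ w hw)
  have h2 : ((seq 0).2 : ℝ) ^ 2 / r < 1 / 10 := by
    rw [div_lt_iff₀ hr']
    linarith
  have h3 : 9 / 5 < t * (2 / t') := by
    rw [← mul_div_assoc, lt_div_iff₀ ht'0, ht']
    nlinarith
  linarith

end Pool.Agent.Helper130.Odell
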