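import Pool.Agent.Helper130.Odell.Wot

set_option autoImplicit false

open Filter Topology

namespace Pool.Agent.Helper130.Odell

variable {𝕜 : Type*} [RCLike 𝕜]
variable {Y : Type*} [NormedAddCommGroup Y] [NormedSpace 𝕜 Y]
variable {Z : Type*} [NormedAddCommGroup Z] [NormedSpace 𝕜 Z]

/-- `F` is Hilbertian with constant `K`: on `F` the square of the norm is equivalent to a
nonnegative function satisfying the parallelogram law. -/
def Hilb (K : ℝ) (F : Submodule 𝕜 Y) : Prop :=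
  ∃ q : Y → ℝ, (∀ x ∈ F, ∀ y ∈ F, q (x + y) + q (x - y) = 2 * q x + 2 * q y) ∧
    ∀ x ∈ F, 0 ≤ q x ∧ q x ≤ ‖x‖ ^ 2 ∧ ‖x‖ ^ 2 ≤ K * q x

theorem Hilb.transport {K : ℝ} {F : Submodule 𝕜 Y} (L : Y →ₗ[𝕜] Z) (h : Hilb K (F.map L))
    {a b : ℝ} (ha : 0 < a) (hb : 0 ≤ b) (h1 : ∀ y ∈ F, ‖L y‖ ≤ a * ‖y‖)
    (h2 : ∀ y ∈ F, ‖y‖ ≤ b * ‖L y‖) : Hilb (a ^ 2 * b ^ 2 * K) F := by
  obtain ⟨q, hq1, hq2⟩ := h
  refine ⟨fun y => q (L y) / a ^ 2, fun x hx y hy => ?_, fun x hx => ?_⟩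
  · have := hq1 (L x) (Submodule.mem_map_of_mem hx) (L y) (Submodule.mem_map_of_mem hy)
    simp only [map_add, map_sub]
    rw [← add_div, this]
    ring
  · obtain ⟨e0, e1, e2⟩ := hq2 (L x) (Submodule.mem_map_of_mem hx)
    simp only
    refine ⟨by positivity, ?_, ?_⟩
    · rw [div_le_iff₀ (by positivity)]
      calc q (L x) ≤ ‖L x‖ ^ 2 := e1
        _ ≤ (a * ‖x‖) ^ 2 := by gcongr; exact h1 x hx
        _ = ‖x‖ ^ 2 * a ^ 2 := by ring
    · calc ‖x‖ ^ 2 ≤ (b * ‖L x‖) ^ 2 := by gcongr; exact h2 x hx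
        _ = b ^ 2 * ‖L x‖ ^ 2 := by ring
        _ ≤ b ^ 2 * (K * q (L x)) := by gcongr
        _ = a ^ 2 * b ^ 2 * K * (q (L x) / a ^ 2) := by field_simp

theorem Hilb.mono {K K' : ℝ} {F : Submodule 𝕜 Y} (h : Hilb K F) (hK : K ≤ K') : Hilb K' F := by
  obtain ⟨q, hq1, hq2⟩ := h
  refine ⟨q, hq1, fun x hx => ⟨(hq2 x hx).1, (hq2 x hx).2.1, (hq2 x hx).2.2.trans ?_⟩⟩
  exact mul_le_mul_of_nonneg_right hK (hq2 x hx).1

/-- The isomorphic properties of the space used in the argument: reflexivity, a sequence of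
finite rank projections converging pointwise to the identity, far away small-dimensional subspaces
are Hilbertian, and no infinite-dimensional subspace is uniformly locally Hilbertian. -/
structure Good (𝕜 : Type*) [RCLike 𝕜] (Y : Type*) [NormedAddCommGroup Y] [NormedSpace 𝕜 Y] :
    Prop where
  refl : Refl 𝕜 Y
  far : ∃ (B C : ℝ) (E : ℕ → Y →L[𝕜] Y), (∀ n, ‖E n‖ ≤ B) ∧ (∀ n, FR (E n)) ∧
    (∀ y, Tendsto (fun n => E n y) atTop (𝓝 y)) ∧
    (∀ m n, m ≤ n → ∀ y, E m (E n y) = E m y) ∧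
    (∀ m n, m ≤ n → ∀ y, E n (E m y) = E m y) ∧
    ∀ k : ℕ, ∃ n, ∀ F : Submodule 𝕜 Y, FiniteDimensional 𝕜 F → Module.finrank 𝕜 F ≤ k →
      (∀ x ∈ F, E n x = 0) → Hilb C F
  nh : ∀ (K : ℝ) (W : Submodule 𝕜 Y),
    (∀ F : Submodule 𝕜 Y, F ≤ W → FiniteDimensional 𝕜 F → Hilb K F) → FiniteDimensional 𝕜 W

theorem FR.comp_left {G : Y →L[𝕜] Z} {W : Type*} [NormedAddCommGroup W] [NormedSpace 𝕜 W]
    (hG : FR G) (H : Z →L[𝕜] W) : FR (H.comp G) := by
  unfold FR at *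
  have : LinearMap.range ((H.comp G : Y →L[𝕜] W) : Y →ₗ[𝕜] W) =
      (LinearMap.range (G : Y →ₗ[𝕜] Z)).map (H : Z →ₗ[𝕜] W) := by
    rw [← LinearMap.range_comp]
    rfl
  rw [this]
  infer_instance

theorem FR.comp_right {W : Type*} [NormedAddCommGroup W] [NormedSpace 𝕜 W] {G : Y →L[𝕜] Z}
    (hG : FR G) (H : W →L[𝕜] Y) : FR (G.comp H) := by
  unfold FR at *
  refine Submodule.finiteDimensional_of_le (S₂ := LinearMap.range (G : Y →ₗ[𝕜] Z)) ?_
  rintro _ ⟨x, rfl⟩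
  exact ⟨H x, rfl⟩

theorem Good.of_equiv (h : Good 𝕜 Y) (T : Y ≃L[𝕜] Z) : Good 𝕜 Z := by
  refine ⟨?_, ?_, ?_⟩
  · intro G
    let Tt : (Y →L[𝕜] 𝕜) →L[𝕜] (Z →L[𝕜] 𝕜) :=
      (ContinuousLinearMap.compL 𝕜 Z Y 𝕜).flip (T.symm : Z →L[𝕜] Y)
    obtain ⟨y, hy⟩ := h.refl (G.comp Tt)
    refine ⟨T y, fun φ => ?_⟩
    have := hy (φ.comp (T : Y →L[𝕜] Z))
    have e : Tt (φ.comp (T : Y →L[𝕜] Z)) = φ := by
      ext z
      simp [Tt]
    rw [ContinuousLinearMap.comp_apply, e] at this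
    exact this
  · obtain ⟨B, C, E, hB, hF, hlim, hE1, hE2, hfar⟩ := h.far
    refine ⟨‖(T : Y →L[𝕜] Z)‖ * (B * ‖(T.symm : Z →L[𝕜] Y)‖),
      (‖(T.symm : Z →L[𝕜] Y)‖ + 1) ^ 2 * ‖(T : Y →L[𝕜] Z)‖ ^ 2 * C,
      fun n => (T : Y →L[𝕜] Z).comp ((E n).comp (T.symm : Z →L[𝕜] Y)), fun n => ?_, fun n => ?_,
      fun z => ?_, fun m n hmn z => ?_, fun m n hmn z => ?_, fun k => ?_⟩
    · refine (ContinuousLinearMap.opNorm_comp_le _ _).trans ?_
      refine mul_le_mul_of_nonneg_left ((ContinuousLinearMap.opNorm_comp_le _ _).trans ?_)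
        (norm_nonneg _)
      exact mul_le_mul_of_nonneg_right (hB n) (norm_nonneg _)
    · exact ((hF n).comp_right _).comp_left _
    · have := (T.continuous.tendsto _).comp (hlim (T.symm z))
      simpa [Function.comp_def] using this
    · simp [hE1 m n hmn]
    · simp [hE2 m n hmn]
    · obtain ⟨n, hn⟩ := hfar k
      refine ⟨n, fun F hF hk hF0 => ?_⟩
      have h1 := hn (F.map (T.symm : Z →L[𝕜] Y).toLinearMap) inferInstance
        ((Submodule.finrank_map_le _ _).trans hk) (by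
          rintro _ ⟨x, hx, rfl⟩
          have := hF0 x hx
          simpa using this)
      refine h1.transport (T.symm : Z →L[𝕜] Y).toLinearMap (by positivity) (norm_nonneg _)
        (fun y hy => ?_) (fun y hy => ?_)
      · refine ((T.symm : Z →L[𝕜] Y).le_opNorm y).trans ?_
        exact mul_le_mul_of_nonneg_right (by linarith) (norm_nonneg _)
      · have := (T : Y →L[𝕜] Z).le_opNorm (T.symm y)
        simpa using this
  · intro K W hW
    have h1 : FiniteDimensional 𝕜 (W.map (T.symm : Z →L[𝕜] Y).toLinearMap) := by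
      refine h.nh ((‖(T : Y →L[𝕜] Z)‖ + 1) ^ 2 * ‖(T.symm : Z →L[𝕜] Y)‖ ^ 2 * K) _
        (fun F hF hFd => ?_)
      have h2 := hW (F.map (T : Y →L[𝕜] Z).toLinearMap) (by
        rintro _ ⟨x, hx, rfl⟩
        obtain ⟨w, hw, hwx⟩ := hF hx
        rw [← hwx]
        simpa using hw) inferInstance
      refine h2.transport (T : Y →L[𝕜] Z).toLinearMap (by positivity) (norm_nonneg _)
        (fun y hy => ?_) (fun y hy => ?_)
      · refine ((T : Y →L[𝕜] Z).le_opNorm y).trans ?_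
        exact mul_le_mul_of_nonneg_right (by linarith) (norm_nonneg _)
      · have := (T.symm : Z →L[𝕜] Y).le_opNorm (T y)
        simpa using this
    have h3 : W = (W.map (T.symm : Z →L[𝕜] Y).toLinearMap).map (T : Y →L[𝕜] Z).toLinearMap := by
      rw [← Submodule.map_comp]
      have : (T : Y →L[𝕜] Z).toLinearMap ∘ₗ (T.symm : Z →L[𝕜] Y).toLinearMap = LinearMap.id := by
        ext z; simp
      rw [this, Submodule.map_id]
    rw [h3]
    infer_instance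

end Pool.Agent.Helper130.Odell
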