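import Pool.Agent.Helper130.Odell.Proj
import Pool.Agent.Helper130.Odell.Good

set_option autoImplicit false

open Filter Topology

namespace Pool.Agent.Helper130.Odell

variable {𝕜 : Type*} [RCLike 𝕜]


/-- A small net of the unit sphere of a finite-dimensional real normed space. -/
theorem exists_net (V : Type*) [NormedAddCommGroup V] [NormedSpace ℝ V] [FiniteDimensional ℝ V] :
    ∃ s : Finset V, s.card ≤ 5 ^ (Module.finrank ℝ V) ∧ (∀ x ∈ s, ‖x‖ = 1) ∧
      ∀ x : V, ‖x‖ = 1 → ∃ y ∈ s, ‖x - y‖ < 1 / 2 := by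
  classical
  have key : ∀ s : Finset V, (∀ x ∈ s, ‖x‖ = 1) →
      (∀ x ∈ s, ∀ y ∈ s, x ≠ y → 1 / 2 ≤ ‖x - y‖) → s.card ≤ 5 ^ (Module.finrank ℝ V) := by
    intro s h1 h2
    have hinj : Function.Injective (fun x : V => (2 : ℝ) • x) := smul_right_injective V (by norm_num)
    have h3 := Besicovitch.card_le_of_separated (s.image (fun x : V => (2 : ℝ) • x))
      (by
        intro c hc
        obtain ⟨x, hx, rfl⟩ := Finset.mem_image.1 hc
        rw [norm_smul, h1 x hx]
        norm_num)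
      (by
        intro c hc d hd hcd
        obtain ⟨x, hx, rfl⟩ := Finset.mem_image.1 hc
        obtain ⟨y, hy, rfl⟩ := Finset.mem_image.1 hd
        have hxy : x ≠ y := fun h => hcd (by rw [h])
        have := h2 x hx y hy hxy
        rw [← smul_sub, norm_smul]
        norm_num
        linarith)
    rwa [Finset.card_image_of_injective _ hinj] at h3
  by_contra hcon
  push Not at hcon
  have hall : ∀ n : ℕ, ∃ s : Finset V, s.card = n ∧ (∀ x ∈ s, ‖x‖ = 1) ∧
      (∀ x ∈ s, ∀ y ∈ s, x ≠ y → 1 / 2 ≤ ‖x - y‖) := by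
    intro n
    induction n with
    | zero => exact ⟨∅, by simp, by simp, by simp⟩
    | succ n ih =>
      obtain ⟨s, hs, h1, h2⟩ := ih
      obtain ⟨x, hx, hxs⟩ := hcon s (key s h1 h2) h1
      have hxn : x ∉ s := by
        intro h
        have := hxs x h
        rw [sub_self, norm_zero] at this
        norm_num at this
      refine ⟨insert x s, by rw [Finset.card_insert_of_notMem hxn, hs], ?_, ?_⟩
      · intro y hy
        rcases Finset.mem_insert.1 hy with rfl | hy
        · exact hx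
        · exact h1 y hy
      · intro y hy z hz hyz
        rcases Finset.mem_insert.1 hy with hyx | hy'
        · rcases Finset.mem_insert.1 hz with hzx | hz'
          · exact absurd (hyx.trans hzx.symm) hyz
          · rw [hyx]; exact hxs z hz'
        · rcases Finset.mem_insert.1 hz with hzx | hz'
          · rw [hzx, norm_sub_rev]; exact hxs y hy'
          · exact h2 y hy' z hz' hyz
  obtain ⟨s, hs, h1, h2⟩ := hall (5 ^ (Module.finrank ℝ V) + 1)
  have := key s h1 h2
  omega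

theorem exists_net' (V : Type*) [NormedAddCommGroup V] [NormedSpace 𝕜 V] [FiniteDimensional 𝕜 V]
    (k : ℕ) (hk : Module.finrank 𝕜 V ≤ k) :
    ∃ s : Finset V, s.card ≤ 5 ^ (2 * k) ∧ (∀ x ∈ s, ‖x‖ = 1) ∧
      ∀ x : V, ‖x‖ = 1 → ∃ y ∈ s, ‖x - y‖ < 1 / 2 := by
  letI : NormedSpace ℝ V := NormedSpace.restrictScalars ℝ 𝕜 V
  haveI : IsScalarTower ℝ 𝕜 V := ⟨fun r a x => by
    rw [Algebra.smul_def, mul_smul]
    rfl⟩
  haveI : FiniteDimensional ℝ V := Module.Finite.trans 𝕜 V
  obtain ⟨s, h1, h2, h3⟩ := exists_net V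
  refine ⟨s, h1.trans (Nat.pow_le_pow_right (by norm_num) ?_), h2, h3⟩
  rw [← Module.finrank_mul_finrank ℝ 𝕜 V]
  refine Nat.mul_le_mul ?_ hk
  exact RCLike.finrank_le_two 𝕜

/-- Far away small-dimensional subspaces are uniformly Hilbertian. -/
theorem TX.far (k : ℕ) : ∃ n, ∀ F : Submodule 𝕜 (TX 𝕜), FiniteDimensional 𝕜 F →
    Module.finrank 𝕜 F ≤ k → (∀ x ∈ F, ∀ m, m < n → x.val m = 0) → Hilb 25 F := by
  classical
  refine ⟨5 ^ (2 * k), fun F hF hFk hF0 => ?_⟩
  obtain ⟨s, hcard, hs1, hs2⟩ := exists_net' (𝕜 := 𝕜) F k hFk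
  -- normalisation
  have hnorm : ∀ x ∈ F, x ≠ 0 → ∃ y ∈ s, ‖((‖x‖ : 𝕜)⁻¹ • x) - (y : TX 𝕜)‖ < 1 / 2 := by
    intro x hx hx0
    have h1 : ‖((‖x‖ : 𝕜)⁻¹ • (⟨x, hx⟩ : F))‖ = 1 := by
      rw [norm_smul]
      have : ‖(⟨x, hx⟩ : F)‖ = ‖x‖ := rfl
      rw [this, norm_inv, RCLike.norm_ofReal, abs_norm]
      exact inv_mul_cancel₀ (norm_ne_zero_iff.2 hx0)
    obtain ⟨y, hy, hxy⟩ := hs2 _ h1
    exact ⟨y, hy, hxy⟩
  by_cases hne : s.Nonempty
  swap
  · refine ⟨fun _ => 0, fun x _ y _ => by norm_num, fun x hx => ?_⟩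
    have hx0 : x = 0 := by
      by_contra h
      obtain ⟨y, hy, -⟩ := hnorm x hx h
      exact hne ⟨y, hy⟩
    subst hx0
    simp
  haveI : Nonempty s := hne.to_subtype
  have hex : ∀ i : s, ∃ w, KK w ∧ 49 / 50 < pair w (sq (i.1 : TX 𝕜).val) := by
    intro i
    refine TX.exists_pair ?_
    have : ‖((i.1 : F) : TX 𝕜)‖ = 1 := hs1 i.1 i.2
    rw [this]; norm_num
  choose w hw hwlt using hex
  have hmax : ∀ j : ℕ, ∃ i₀ : s, ∀ i : s, w i j ≤ w i₀ j := fun j =>
    Finite.exists_max (fun i : s => w i j)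
  choose c hc using hmax
  set N := 5 ^ (2 * k) with hN
  set W : ℕ →₀ ℝ := (1 / 2 : ℝ) • ∑ i : s, (w i).filter (fun j => c j = i ∧ N ≤ j) with hW
  have hWK : KK W := by
    refine KK.sum N (by rw [Fintype.card_coe]; exact hcard) _ (fun i => (hw i).filter _)
      (fun i j hij => ?_) (fun i n hn => ?_)
    · rw [Finset.disjoint_left]
      intro n hn hn'
      rw [Finsupp.support_filter, Finset.mem_filter] at hn hn'
      exact hij (hn.2.1.symm.trans hn'.2.1)
    · rw [Finsupp.support_filter, Finset.mem_filter] at hn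
      exact hn.2.2
  have hWval : ∀ j, N ≤ j → ∀ i : s, (1 / 2) * w i j ≤ W j := by
    intro j hj i
    have : W j = (1 / 2) * w (c j) j := by
      rw [hW, Finsupp.smul_apply, Finsupp.finsetSum_apply, smul_eq_mul,
        Finset.sum_eq_single (c j)]
      · rw [Finsupp.filter_apply, if_pos ⟨rfl, hj⟩]
      · intro i' _ hi'
        rw [Finsupp.filter_apply, if_neg (fun h => hi' h.1.symm)]
      · intro h; exact absurd (Finset.mem_univ _) h
    rw [this]
    exact mul_le_mul_of_nonneg_left (hc j i) (by norm_num)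
  have hpair : ∀ i : s, 49 / 100 < pair W (sq (i.1 : TX 𝕜).val) := by
    intro i
    have h1 : (1 / 2) * pair (w i) (sq (i.1 : TX 𝕜).val) ≤ pair W (sq (i.1 : TX 𝕜).val) := by
      rw [pair_eq_sum (s := (w i).support ∪ W.support) Finset.subset_union_left,
        pair_eq_sum (s := (w i).support ∪ W.support) Finset.subset_union_right, Finset.mul_sum]
      refine Finset.sum_le_sum fun j _ => ?_
      by_cases hj : N ≤ j
      · rw [← mul_assoc]
        refine mul_le_mul_of_nonneg_right (hWval j hj i) ?_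
        unfold sq; positivity
      · have h0 : ((i.1 : F) : TX 𝕜).val j = 0 := hF0 _ i.1.2 j (not_le.1 hj)
        have : sq ((i.1 : F) : TX 𝕜).val j = 0 := by unfold sq; rw [h0]; simp
        rw [this]; simp
    linarith [hwlt i]
  have hvi : ∀ i : s, 7 / 10 ≤ ‖vec W (i.1 : TX 𝕜).val‖ := by
    intro i
    have h1 := norm_vec_sq hWK.nonneg (i.1 : TX 𝕜).val
    have h2 := hpair i
    rw [← h1] at h2
    have h3 := norm_nonneg (vec W (i.1 : TX 𝕜).val)
    nlinarith
  refine ⟨fun x => pair W (sq x.val), fun x _ y _ => ?_, fun x hx => ⟨?_, ?_, ?_⟩⟩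
  · simp only
    rw [← norm_vec_sq hWK.nonneg, ← norm_vec_sq hWK.nonneg, ← norm_vec_sq hWK.nonneg,
      ← norm_vec_sq hWK.nonneg]
    have := parallelogram_law_with_norm 𝕜 (vec W x.val) (vec W y.val)
    rw [map_add, map_sub, map_add, map_sub]
    nlinarith
  · exact pair_sq_nonneg hWK.nonneg _
  · exact x.pair_le hWK
  · simp only
    rw [← norm_vec_sq hWK.nonneg]
    by_cases hx0 : x = 0
    · subst hx0; simp
    have hxn : 0 < ‖x‖ := norm_pos_iff.2 hx0
    obtain ⟨y, hy, hxy⟩ := hnorm x hx hx0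
    set u : TX 𝕜 := (‖x‖ : 𝕜)⁻¹ • x with hu
    have h1 : ‖vec W u.val‖ ≥ 1 / 5 := by
      have h2 := hvi ⟨y, hy⟩
      have h3 := (u - (y : TX 𝕜)).vec_le hWK
      have h4 : vec W (y : TX 𝕜).val = vec W u.val - vec W (u - (y : TX 𝕜)).val := by
        rw [← map_sub, ← map_sub]
        congr 2
        abel
      simp only at h2
      rw [h4] at h2
      have h5 := norm_sub_le (vec W u.val) (vec W (u - (y : TX 𝕜)).val)
      linarith
    have h2 : ‖vec W u.val‖ = ‖x‖⁻¹ * ‖vec W x.val‖ := by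
      rw [hu, map_smul, map_smul, norm_smul, norm_inv, RCLike.norm_ofReal, abs_norm]
    rw [h2] at h1
    have h3 : ‖x‖ ≤ 5 * ‖vec W x.val‖ := by
      have : ‖x‖ * (1 / 5) ≤ ‖x‖ * (‖x‖⁻¹ * ‖vec W x.val‖) := mul_le_mul_of_nonneg_left h1 hxn.le
      rw [← mul_assoc, mul_inv_cancel₀ hxn.ne', one_mul] at this
      linarith
    nlinarith [norm_nonneg (vec W x.val)]

end Pool.Agent.Helper130.Odell
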