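import Pool.Agent.Helper130.Odell.T1
import Pool.Agent.Helper130.Odell.Core
import Pool.Agent.Helper130.Odell.Good

set_option autoImplicit false

open Filter Topology

namespace Pool.Agent.Helper130.Odell

variable {𝕜 : Type*} [RCLike 𝕜]


/-- Choice of signs. -/
theorem exists_signs {Y : Type*} [NormedAddCommGroup Y] [NormedSpace 𝕜 Y] (F : Submodule 𝕜 Y)
    (q : Y → ℝ) (hq : ∀ x ∈ F, ∀ y ∈ F, q (x + y) + q (x - y) = 2 * q x + 2 * q y)
    (x : ℕ → Y) (hx : ∀ s, x s ∈ F) (S : Finset ℕ) :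
    ∃ ε : ℕ → 𝕜, (∀ s, ε s = 1 ∨ ε s = -1) ∧ ∑ s ∈ S, q (x s) ≤ q (∑ s ∈ S, ε s • x s) := by
  classical
  induction S using Finset.induction_on with
  | empty =>
    refine ⟨fun _ => 1, fun _ => Or.inl rfl, ?_⟩
    have := hq 0 F.zero_mem 0 F.zero_mem
    simp only [add_zero, sub_zero] at this
    simp only [Finset.sum_empty]
    linarith
  | insert a S ha ih =>
    obtain ⟨ε, hε, hle⟩ := ih
    have hcongr : ∀ δ : 𝕜, ∑ s ∈ S, Function.update ε a δ s • x s = ∑ s ∈ S, ε s • x s := by
      intro δ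
      refine Finset.sum_congr rfl ?_
      intro s hs
      have : s ≠ a := fun h => ha (h ▸ hs)
      rw [Function.update_of_ne this]
    set v := ∑ s ∈ S, ε s • x s with hv
    have hvF : v ∈ F := F.sum_mem fun s _ => F.smul_mem _ (hx s)
    have hp := hq v hvF (x a) (hx a)
    rcases le_or_gt (q v + q (x a)) (q (v + x a)) with h | h
    · refine ⟨Function.update ε a 1, ?_, ?_⟩
      · intro s
        by_cases hs : s = a
        · subst hs
          rw [Function.update_self]
          exact Or.inl rfl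
        · rw [Function.update_of_ne hs]
          exact hε s
      · rw [Finset.sum_insert ha, Finset.sum_insert ha, hcongr, Function.update_self, one_smul,
          add_comm (x a)]
        linarith
    · refine ⟨Function.update ε a (-1), ?_, ?_⟩
      · intro s
        by_cases hs : s = a
        · subst hs
          rw [Function.update_self]
          exact Or.inr rfl
        · rw [Function.update_of_ne hs]
          exact hε s
      · rw [Finset.sum_insert ha, Finset.sum_insert ha, hcongr, Function.update_self, neg_one_smul,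
          add_comm (-x a), ← sub_eq_add_neg]
        linarith

/-- No infinite-dimensional subspace is uniformly locally Hilbertian. -/
theorem TX.nh (K : ℝ) (W : Submodule 𝕜 (TX 𝕜))
    (hW : ∀ F : Submodule 𝕜 (TX 𝕜), F ≤ W → FiniteDimensional 𝕜 F → Hilb K F) :
    FiniteDimensional 𝕜 W := by
  classical
  by_contra hinf
  obtain ⟨K, hK1, hW⟩ : ∃ K' : ℝ, 1 ≤ K' ∧ ∀ F : Submodule 𝕜 (TX 𝕜), F ≤ W →
      FiniteDimensional 𝕜 F → Hilb K' F := by
    refine ⟨max K 1, le_max_right _ _, ?_⟩
    intro F hF hfd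
    obtain ⟨q, hq, hq2⟩ := hW F hF hfd
    refine ⟨q, hq, ?_⟩
    intro x hx
    obtain ⟨h1, h2, h3⟩ := hq2 x hx
    exact ⟨h1, h2, h3.trans (mul_le_mul_of_nonneg_right (le_max_left _ _) h1)⟩
  have hKpos : 0 < K := lt_of_lt_of_le one_pos hK1
  -- Step 1
  have step1 : ∀ N : ℕ, ∃ y ∈ W, ‖y‖ = 1 ∧ ∀ n, n < N → y.val n = 0 := by
    intro N
    by_contra hcon
    apply hinf
    let L : W →ₗ[𝕜] (Fin N → 𝕜) :=
      { toFun := fun y i => (y : TX 𝕜).val i
        map_add' := fun y z => by
          funext i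
          simp
        map_smul' := fun c y => by
          funext i
          simp }
    refine FiniteDimensional.of_injective L ?_
    rw [← LinearMap.ker_eq_bot, LinearMap.ker_eq_bot']
    intro y hy
    by_contra hne
    apply hcon
    have hny : ‖(y : TX 𝕜)‖ ≠ 0 := by
      rw [norm_ne_zero_iff]
      intro h
      exact hne (Subtype.ext h)
    refine ⟨((‖(y : TX 𝕜)‖⁻¹ : ℝ) : 𝕜) • (y : TX 𝕜), W.smul_mem _ y.2, ?_, ?_⟩
    · rw [norm_smul, RCLike.norm_ofReal, abs_of_nonneg (inv_nonneg.2 (norm_nonneg _)),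
        inv_mul_cancel₀ hny]
    · intro n hn
      have h1 : (y : TX 𝕜).val n = 0 := congrFun hy ⟨n, hn⟩
      rw [map_smul, Pi.smul_apply, h1, smul_zero]
  choose y hyW hy1 hy0 using step1
  have step2 : ∀ N : ℕ, ∃ M : ℕ, N < M ∧ ‖y N - TX.proj (fun n => n < M) (y N)‖ ≤
      (1 / 4) * (1 / 2 : ℝ) ^ N := by
    intro N
    have h1 : Tendsto (fun M => ‖y N - TX.proj (fun n => n < M) (y N)‖) atTop (𝓝 0) := by
      have h2 : Tendsto (fun M => y N - TX.proj (fun n => n < M) (y N)) atTop
          (𝓝 (y N - y N)) := tendsto_const_nhds.sub (TX.tendsto_proj (y N))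
      rw [sub_self] at h2
      have h3 := h2.norm
      rwa [norm_zero] at h3
    have h2 : ∀ᶠ M in atTop, ‖y N - TX.proj (fun n => n < M) (y N)‖ <
        (1 / 4) * (1 / 2 : ℝ) ^ N :=
      h1.eventually (gt_mem_nhds (by positivity))
    obtain ⟨M, hM1, hM2⟩ := (h2.and (eventually_gt_atTop N)).exists
    exact ⟨M, hM2, hM1.le⟩
  choose nx hnx hnx2 using step2
  let NN : ℕ → ℕ := fun s => nx^[s] 0
  have hNNs : ∀ s, NN (s + 1) = nx (NN s) := fun s => Function.iterate_succ_apply' nx s 0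
  have hNNmono : StrictMono NN := strictMono_nat_of_lt_succ fun s => by
    rw [hNNs]
    exact hnx _
  have hNNge : ∀ s, s ≤ NN s := fun s => hNNmono.le_apply
  let b : ℕ → TX 𝕜 := fun s => TX.proj (fun n => n < NN (s + 1)) (y (NN s))
  have hbval : ∀ s n, (b s).val n = if n < NN (s + 1) then (y (NN s)).val n else 0 :=
    fun s n => TX.proj_val _ _ _
  have hblow : ∀ s n, n < NN s → (b s).val n = 0 := by
    intro s n hn
    rw [hbval, hy0 _ _ hn]
    simp
  have hbhigh : ∀ s n, NN (s + 1) ≤ n → (b s).val n = 0 := by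
    intro s n hn
    rw [hbval, if_neg (not_lt.2 hn)]
  have hdisj : ∀ s t, s ≠ t → ∀ n, (b s).val n = 0 ∨ (b t).val n = 0 := by
    have key : ∀ s t, s < t → ∀ n, (b s).val n = 0 ∨ (b t).val n = 0 := by
      intro s t hst n
      rcases lt_or_ge n (NN (s + 1)) with h | h
      · right
        exact hblow t n (lt_of_lt_of_le h (hNNmono.monotone hst))
      · left
        exact hbhigh s n h
    intro s t hst n
    rcases lt_or_gt_of_ne hst with h | h
    · exact key s t h n
    · exact (key t s h n).symm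
  have herr : ∀ s, ‖y (NN s) - b s‖ ≤ (1 / 4) * (1 / 2 : ℝ) ^ s := by
    intro s
    have h1 := hnx2 (NN s)
    rw [← hNNs] at h1
    refine h1.trans ?_
    have h2 : (1 / 2 : ℝ) ^ NN s ≤ (1 / 2 : ℝ) ^ s :=
      pow_le_pow_of_le_one (by norm_num) (by norm_num) (hNNge s)
    linarith
  have hbge : ∀ s, 1 / 2 ≤ ‖b s‖ := by
    intro s
    have h1 := herr s
    have h2 : (1 / 2 : ℝ) ^ s ≤ 1 := pow_le_one₀ (by norm_num) (by norm_num)
    have h3 := norm_sub_norm_le (y (NN s)) (b s)
    rw [hy1] at h3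
    linarith
  have hble : ∀ s, ‖b s‖ ≤ 1 := fun s => by
    rw [← hy1 (NN s)]
    exact TX.proj_le _ _
  refine Pool.Agent.Helper130.Odell.core (fun s => sq (b s).val) ?_ ?_ ?_ ?_ (1 / (8 * K)) (by positivity) ?_
  · intro s n
    unfold sq
    positivity
  · intro s
    refine ⟨NN (s + 1), ?_⟩
    intro n hn
    simp only [sq, hbhigh s n hn, norm_zero]
    norm_num
  · intro m
    refine ⟨m, ?_⟩
    intro s hs n hn
    simp only [sq, hblow s n (lt_of_lt_of_le hn (hs.trans (hNNge s))), norm_zero]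
    norm_num
  · intro s w hw
    refine ((b s).pair_le hw).trans ?_
    have := hble s
    have h0 := norm_nonneg (b s)
    nlinarith
  · intro S c hc
    rcases (Finset.sum_nonneg fun s (_ : s ∈ S) => hc s).eq_or_lt with hsum | hsum
    · refine ⟨0, KK.zero, ?_⟩
      rw [← hsum, pair_zero_left, mul_zero]
    -- the finite dimensional space
    let F : Submodule 𝕜 (TX 𝕜) := Submodule.span 𝕜 (Set.range fun s : S => y (NN s))
    have hFW : F ≤ W := by
      rw [Submodule.span_le]
      rintro _ ⟨s, rfl⟩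
      exact hyW _
    have hFfd : FiniteDimensional 𝕜 F := FiniteDimensional.span_of_finite 𝕜 (Set.finite_range _)
    obtain ⟨q, hq, hq2⟩ := hW F hFW hFfd
    let x : ℕ → TX 𝕜 := fun s => if s ∈ S then ((Real.sqrt (c s) : ℝ) : 𝕜) • y (NN s) else 0
    have hxS : ∀ s ∈ S, x s = ((Real.sqrt (c s) : ℝ) : 𝕜) • y (NN s) := fun s hs => if_pos hs
    have hxF : ∀ s, x s ∈ F := by
      intro s
      by_cases hs : s ∈ S
      · rw [hxS s hs]
        exact F.smul_mem _ (Submodule.subset_span ⟨⟨s, hs⟩, rfl⟩)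
      · have : x s = 0 := if_neg hs
        rw [this]
        exact F.zero_mem
    obtain ⟨ε, hε, hεle⟩ := exists_signs F q hq x hxF S
    have hεn : ∀ s, ‖ε s‖ = 1 := by
      intro s
      rcases hε s with h | h <;> simp [h]
    set Z : TX 𝕜 := ∑ s ∈ S, ε s • x s with hZ
    have hZF : Z ∈ F := F.sum_mem fun s _ => F.smul_mem _ (hxF s)
    have hnx' : ∀ s ∈ S, ‖x s‖ ^ 2 = c s := by
      intro s hs
      rw [hxS s hs, norm_smul, RCLike.norm_ofReal, hy1, mul_one, sq_abs, Real.sq_sqrt (hc s)]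
    have hZge : (1 / K) * ∑ s ∈ S, c s ≤ ‖Z‖ ^ 2 := by
      calc (1 / K) * ∑ s ∈ S, c s = ∑ s ∈ S, (1 / K) * c s := by rw [Finset.mul_sum]
        _ ≤ ∑ s ∈ S, q (x s) := by
            refine Finset.sum_le_sum ?_
            intro s hs
            have h1 := (hq2 (x s) (hxF s)).2.2
            rw [hnx' s hs] at h1
            rw [one_div, inv_mul_le_iff₀ hKpos]
            exact h1
        _ ≤ q Z := hεle
        _ ≤ ‖Z‖ ^ 2 := (hq2 Z hZF).2.1
    set B : TX 𝕜 := ∑ s ∈ S, (ε s * ((Real.sqrt (c s) : ℝ) : 𝕜)) • b s with hB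
    have hBval : ∀ n, B.val n = ∑ s ∈ S, (ε s * ((Real.sqrt (c s) : ℝ) : 𝕜)) * (b s).val n := by
      intro n
      rw [hB, map_sum, Finset.sum_apply]
      refine Finset.sum_congr rfl ?_
      intro s _
      rw [map_smul, Pi.smul_apply, smul_eq_mul]
    have hcoef : ∀ s, ‖ε s * ((Real.sqrt (c s) : ℝ) : 𝕜)‖ = Real.sqrt (c s) := by
      intro s
      rw [norm_mul, hεn, one_mul, RCLike.norm_ofReal, abs_of_nonneg (Real.sqrt_nonneg _)]
    have hBat : ∀ n, ∀ s ∈ S, (b s).val n ≠ 0 → B.val n =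
        (ε s * ((Real.sqrt (c s) : ℝ) : 𝕜)) * (b s).val n := by
      intro n s hs hne
      rw [hBval]
      refine Finset.sum_eq_single s ?_ (fun h => absurd hs h)
      intro t _ hts
      have := (hdisj t s hts n).resolve_right hne
      rw [this, mul_zero]
    -- each coefficient is controlled
    have hcoefle : ∀ s ∈ S, Real.sqrt (c s) ≤ 2 * ‖B‖ := by
      intro s hs
      have h1 : ‖(ε s * ((Real.sqrt (c s) : ℝ) : 𝕜)) • b s‖ ≤ ‖B‖ := by
        refine TX.norm_mono ?_
        intro n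
        rw [map_smul, Pi.smul_apply, smul_eq_mul]
        by_cases hne : (b s).val n = 0
        · rw [hne, mul_zero, norm_zero]
          exact norm_nonneg _
        · rw [hBat n s hs hne]
      rw [norm_smul, hcoef] at h1
      have h2 := hbge s
      have h3 := Real.sqrt_nonneg (c s)
      nlinarith
    have hgeo : ∑ s ∈ S, (1 / 2 : ℝ) ^ s ≤ 2 := by
      have h1 := Summable.sum_le_tsum S (fun s _ => by positivity) summable_geometric_two
      rwa [tsum_geometric_two] at h1
    have hZB : ‖Z - B‖ ≤ ‖B‖ := by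
      have h1 : Z - B = ∑ s ∈ S, (ε s * ((Real.sqrt (c s) : ℝ) : 𝕜)) • (y (NN s) - b s) := by
        rw [hZ, hB, ← Finset.sum_sub_distrib]
        refine Finset.sum_congr rfl ?_
        intro s hs
        rw [hxS s hs, smul_smul, smul_sub]
      rw [h1]
      calc ‖∑ s ∈ S, (ε s * ((Real.sqrt (c s) : ℝ) : 𝕜)) • (y (NN s) - b s)‖
          ≤ ∑ s ∈ S, ‖(ε s * ((Real.sqrt (c s) : ℝ) : 𝕜)) • (y (NN s) - b s)‖ := norm_sum_le _ _
        _ ≤ ∑ s ∈ S, (1 / 2 * ‖B‖) * (1 / 2 : ℝ) ^ s := by
            refine Finset.sum_le_sum ?_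
            intro s hs
            rw [norm_smul, hcoef]
            calc Real.sqrt (c s) * ‖y (NN s) - b s‖
                ≤ (2 * ‖B‖) * ((1 / 4) * (1 / 2 : ℝ) ^ s) :=
                  mul_le_mul (hcoefle s hs) (herr s) (norm_nonneg _) (by positivity)
              _ = (1 / 2 * ‖B‖) * (1 / 2 : ℝ) ^ s := by ring
        _ = (1 / 2 * ‖B‖) * ∑ s ∈ S, (1 / 2 : ℝ) ^ s := by rw [Finset.mul_sum]
        _ ≤ (1 / 2 * ‖B‖) * 2 := mul_le_mul_of_nonneg_left hgeo (by positivity)
        _ = ‖B‖ := by ring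
    have hZle : ‖Z‖ ≤ 2 * ‖B‖ := by
      have h1 : Z = (Z - B) + B := by abel
      have h2 := norm_add_le (Z - B) B
      rw [← h1] at h2
      linarith
    have hBge : 1 / (8 * K) * ∑ s ∈ S, c s < ‖B‖ ^ 2 := by
      have h1 : ‖Z‖ ^ 2 ≤ 4 * ‖B‖ ^ 2 := by
        have := pow_le_pow_left₀ (norm_nonneg Z) hZle 2
        linarith [this, mul_pow 2 ‖B‖ 2]
      have h2 : 1 / (8 * K) * ∑ s ∈ S, c s = (1 / 8) * ((1 / K) * ∑ s ∈ S, c s) := by
        field_simp
      have h3 : 0 < (1 / K) * ∑ s ∈ S, c s := by positivity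
      rw [h2]
      linarith
    obtain ⟨w, hw, hlt⟩ := TX.exists_pair hBge
    refine ⟨w, hw, hlt.le.trans (le_of_eq ?_)⟩
    congr 1
    funext n
    by_cases hex : ∃ s ∈ S, (b s).val n ≠ 0
    · obtain ⟨s, hs, hne⟩ := hex
      rw [Finset.sum_eq_single s]
      · unfold sq
        rw [hBat n s hs hne, norm_mul, hcoef, mul_pow, Real.sq_sqrt (hc s)]
      · intro t _ hts
        have := (hdisj t s hts n).resolve_right hne
        unfold sq
        rw [this, norm_zero]
        ring
      · intro h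
        exact absurd hs h
    · push Not at hex
      rw [Finset.sum_eq_zero]
      · unfold sq
        rw [hBval, Finset.sum_eq_zero]
        · simp
        · intro s hs
          rw [hex s hs, mul_zero]
      · intro s hs
        unfold sq
        rw [hex s hs, norm_zero]
        ring


end Pool.Agent.Helper130.Odell
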