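import Pool.Agent.Helper130.Odell.Main2
import Pool.Agent.Helper130.Odell.T2
import Pool.Agent.Helper130.Odell.T3

set_option autoImplicit false

open Filter Topology

namespace Pool.Agent.Helper130.Odell

variable {𝕜 : Type*} [RCLike 𝕜]
variable {Y : Type*} [NormedAddCommGroup Y] [NormedSpace 𝕜 Y]
variable {Z : Type*} [NormedAddCommGroup Z] [NormedSpace 𝕜 Z]

theorem TX.good : Good 𝕜 (TX 𝕜) := by
  refine ⟨TX.refl, ⟨1, 25, fun N => TX.proj (fun n => n < N), fun n => TX.norm_proj_le _,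
    fun N => ?_, TX.tendsto_proj, fun m n hmn x => TX.ext fun i => ?_,
    fun m n hmn x => TX.ext fun i => ?_, fun k => ?_⟩, TX.nh⟩
  · -- finite rank
    have : LinearMap.range ((TX.proj (fun n => n < N) : TX 𝕜 →L[𝕜] TX 𝕜) : TX 𝕜 →ₗ[𝕜] TX 𝕜) ≤
        Submodule.span 𝕜 (Set.range fun j : Fin N => (TX.e (j : ℕ) : TX 𝕜)) := by
      rintro _ ⟨x, rfl⟩
      change TX.proj (fun n => n < N) x ∈ _
      rw [Submodule.mem_span_range_iff_exists_fun]
      refine ⟨fun j => x.val j, TX.ext fun n => ?_⟩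
      rw [map_sum, Finset.sum_apply, TX.proj_val]
      simp only [map_smul, Pi.smul_apply, TX.e_val, smul_eq_mul]
      by_cases hn : n < N
      · rw [if_pos hn, Finset.sum_eq_single (⟨n, hn⟩ : Fin N)]
        · simp
        · intro j _ hj
          rw [Pi.single_eq_of_ne (fun h => hj (Fin.ext h.symm))]
          simp
        · simp
      · rw [if_neg hn]
        refine Finset.sum_eq_zero fun j _ => ?_
        have : n ≠ j := fun h => hn (h ▸ j.2)
        rw [Pi.single_eq_of_ne this]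
        simp
    have hfd : FiniteDimensional 𝕜
        (Submodule.span 𝕜 (Set.range fun j : Fin N => (TX.e (j : ℕ) : TX 𝕜))) :=
      FiniteDimensional.span_of_finite 𝕜 (Set.finite_range _)
    exact Submodule.finiteDimensional_of_le this
  · simp only [TX.proj_val]
    by_cases h : i < m
    · have : i < n := lt_of_lt_of_le h hmn
      simp [h, this]
    · simp [h]
  · simp only [TX.proj_val]
    by_cases h : i < m
    · have : i < n := lt_of_lt_of_le h hmn
      simp [h, this]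
    · simp [h]
  · obtain ⟨n, hn⟩ := TX.far (𝕜 := 𝕜) k
    refine ⟨n, fun F hF hk hF0 => hn F hF hk fun x hx m hm => ?_⟩
    have h1 := congrArg (fun y : TX 𝕜 => y.val m) (hF0 x hx)
    simp only [TX.proj_val, if_pos hm, map_zero, Pi.zero_apply] at h1
    exact h1

/-- Limits of powers: an operator in the closure of the near isometries is a surjective isometry. -/
theorem iso_of_near [CompleteSpace Y] (hY : Good 𝕜 Y) (A : Y →L[𝕜] Y) (hA : ∀ c, 1 < c → Near c A) :
    (∀ y, ‖A y‖ = ‖y‖) ∧ Function.Surjective A := by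
  have hA1 : ‖A‖ ≤ 1 := le_of_forall_gt_imp_ge_of_dense fun c hc => (hA c hc).norm_le
  obtain ⟨p, P, hP, hPP⟩ := exists_idem_lim hY.refl A hA1
  have hpow : ∀ n : ℕ, ∀ c, 1 < c → Near c (A ^ (n + 1)) := by
    intro n
    induction n with
    | zero => simpa using hA
    | succ n ih =>
      intro c hc
      have hc' : 1 < Real.sqrt c := by
        rw [Real.lt_sqrt (by norm_num)]
        simpa using hc
      have h1 := (ih _ hc').comp (hA _ hc')
      rw [Real.mul_self_sqrt (by linarith)] at h1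
      rw [pow_succ]
      exact h1
  have hnear : ∀ c, 1 < c → Near c P := by
    intro c hc
    refine Near.of_tendsto (l := (p : Filter ℕ+)) hP (Eventually.of_forall fun n => ?_)
    have := hpow (n.natPred) c hc
    rwa [PNat.natPred_add_one] at this
  have hid := main_lemma hY P hPP hnear
  have hle : ∀ y, ‖A y‖ ≤ ‖y‖ := fun y => by
    have := A.le_of_opNorm_le hA1 y
    rwa [one_mul] at this
  have hpowle : ∀ (n : ℕ) y, ‖(A ^ n) y‖ ≤ ‖y‖ := by
    intro n
    induction n with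
    | zero => intro y; simp
    | succ n ih =>
      intro y
      rw [pow_succ]
      exact (ih (A y)).trans (hle y)
  have hnorm : ∀ y, ‖A y‖ = ‖y‖ := by
    intro y
    refine le_antisymm (hle y) ?_
    obtain ⟨φ, hφ, hφ'⟩ := exists_dual_vector'' 𝕜 y
    have h1 := hP y φ
    rw [hid y] at h1
    have h2 : ‖φ y‖ ≤ ‖A y‖ := by
      refine le_of_tendsto h1.norm (Eventually.of_forall fun n => ?_)
      calc ‖φ ((A ^ (n : ℕ)) y)‖ ≤ ‖φ‖ * ‖(A ^ (n : ℕ)) y‖ := φ.le_opNorm _
        _ ≤ 1 * ‖(A ^ (n : ℕ)) y‖ := by gcongr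
        _ = ‖(A ^ (n.natPred)) (A y)‖ := by
          rw [one_mul]
          have : (n : ℕ) = n.natPred + 1 := (PNat.natPred_add_one n).symm
          conv_lhs => rw [this, pow_succ]
          rfl
        _ ≤ ‖A y‖ := hpowle _ _
    rw [hφ'] at h2
    simpa using h2
  refine ⟨hnorm, ?_⟩
  -- surjectivity: the range is closed (isometry) and weakly dense
  have hisom : Isometry A := AddMonoidHomClass.isometry_of_norm A hnorm
  have hclosed : IsClosed (LinearMap.range (A : Y →ₗ[𝕜] Y) : Set Y) := by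
    rw [LinearMap.coe_range]
    exact hisom.isClosedEmbedding.isClosed_range
  intro y
  by_contra hy
  have hy' : y ∉ LinearMap.range (A : Y →ₗ[𝕜] Y) := fun ⟨z, hz⟩ => hy ⟨z, hz⟩
  set M := LinearMap.range (A : Y →ₗ[𝕜] Y) with hM
  have : IsClosed (M : Set Y) := hclosed
  have hq : M.mkQL y ≠ 0 := by
    rw [Submodule.mkQL_apply, Submodule.mkQ_apply, Ne, Submodule.Quotient.mk_eq_zero]
    exact hy'
  obtain ⟨ψ, hψ, hψ'⟩ := exists_dual_vector'' 𝕜 (M.mkQL y)
  have h1 := hP y (ψ.comp M.mkQL)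
  rw [hid y] at h1
  have h2 : ∀ n : ℕ+, (ψ.comp M.mkQL) ((A ^ (n : ℕ)) y) = 0 := by
    intro n
    have e1 : (n : ℕ) = n.natPred + 1 := (PNat.natPred_add_one n).symm
    have e2 : (A ^ (n : ℕ)) y = A ((A ^ n.natPred) y) := by
      rw [e1, pow_succ']
      rfl
    have e3 : M.mkQL ((A ^ (n : ℕ)) y) = 0 := by
      rw [Submodule.mkQL_apply, Submodule.mkQ_apply, Submodule.Quotient.mk_eq_zero, e2]
      exact ⟨_, rfl⟩
    rw [ContinuousLinearMap.comp_apply, e3, map_zero]
  simp only [h2] at h1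
  have h3 : (ψ.comp M.mkQL) y = 0 := tendsto_nhds_unique h1 tendsto_const_nhds
  rw [ContinuousLinearMap.comp_apply, hψ'] at h3
  have h4 : ‖M.mkQL y‖ = 0 := by exact_mod_cast h3
  exact hq (norm_eq_zero.mp h4)

/-- Rigidity: almost isometric good spaces are isometric. -/
theorem rigid [CompleteSpace Y] [CompleteSpace Z] (hY : Good 𝕜 Y) (hZ : Good 𝕜 Z)
    (T : ℕ → Y ≃L[𝕜] Z) (c : ℕ → ℝ) (hc : Tendsto c atTop (𝓝 1))
    (h1 : ∀ n, ‖(T n : Y →L[𝕜] Z)‖ ≤ c n) (h2 : ∀ n, ‖((T n).symm : Z →L[𝕜] Y)‖ ≤ c n) :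
    Nonempty (Y ≃ₗᵢ[𝕜] Z) := by
  obtain ⟨K, hK⟩ : ∃ K, ∀ n, c n ≤ K := by
    obtain ⟨K, hK⟩ := hc.bddAbove_range
    exact ⟨K, fun n => hK ⟨n, rfl⟩⟩
  let U : Ultrafilter ℕ := hyperfilter ℕ
  have hU : (U : Filter ℕ) ≤ atTop := by
    have := Filter.hyperfilter_le_cofinite (α := ℕ)
    rwa [Nat.cofinite_eq_atTop] at this
  obtain ⟨S, hS⟩ := exists_wot_lim hZ.refl U (fun n => (T n : Y →L[𝕜] Z)) K
    (fun n => (h1 n).trans (hK n))
  obtain ⟨S', hS'⟩ := exists_wot_lim hY.refl U (fun n => ((T n).symm : Z →L[𝕜] Y)) K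
    (fun n => (h2 n).trans (hK n))
  have hcU : ∀ d, 1 < d → ∀ᶠ n in (U : Filter ℕ), c n ≤ d := fun d hd =>
    hU ((hc.eventually (gt_mem_nhds hd)).mono fun n hn => hn.le)
  have hSn : ∀ d, 1 < d → Near d S := fun d hd =>
    Near.of_tendsto (l := (U : Filter ℕ)) hS ((hcU d hd).mono fun n hn =>
      Near.of_equiv (T n) ((h1 n).trans hn) ((h2 n).trans hn))
  have hSn' : ∀ d, 1 < d → Near d S' := fun d hd =>
    Near.of_tendsto (l := (U : Filter ℕ)) hS' ((hcU d hd).mono fun n hn =>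
      Near.of_equiv (T n).symm ((h2 n).trans hn) ((h1 n).trans hn))
  have hcomp : ∀ d, 1 < d → Near d (S'.comp S) := fun d hd => by
    have hd' : 1 < Real.sqrt d := by
      rw [Real.lt_sqrt (by norm_num)]
      simpa using hd
    have h := (hSn' _ hd').comp (hSn _ hd')
    rwa [Real.mul_self_sqrt (by linarith)] at h
  have hcomp' : ∀ d, 1 < d → Near d (S.comp S') := fun d hd => by
    have hd' : 1 < Real.sqrt d := by
      rw [Real.lt_sqrt (by norm_num)]
      simpa using hd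
    have h := (hSn _ hd').comp (hSn' _ hd')
    rwa [Real.mul_self_sqrt (by linarith)] at h
  obtain ⟨a1, a2⟩ := iso_of_near hY _ hcomp
  obtain ⟨b1, b2⟩ := iso_of_near hZ _ hcomp'
  have hS1 : ‖S‖ ≤ 1 := le_of_forall_gt_imp_ge_of_dense fun d hd => (hSn d hd).norm_le
  have hS1' : ‖S'‖ ≤ 1 := le_of_forall_gt_imp_ge_of_dense fun d hd => (hSn' d hd).norm_le
  have hnorm : ∀ y, ‖S y‖ = ‖y‖ := by
    intro y
    refine le_antisymm ?_ ?_
    · have := S.le_of_opNorm_le hS1 y
      rwa [one_mul] at this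
    · have e1 := a1 y
      rw [ContinuousLinearMap.comp_apply] at e1
      have := S'.le_of_opNorm_le hS1' (S y)
      rw [one_mul, e1] at this
      exact this
  have hsurj : Function.Surjective S := fun z => by
    obtain ⟨w, hw⟩ := b2 z
    exact ⟨S' w, hw⟩
  exact ⟨LinearIsometryEquiv.ofSurjective ⟨(S : Y →ₗ[𝕜] Z), hnorm⟩ hsurj⟩

end Pool.Agent.Helper130.Odell
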