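import Mathlib

set_option autoImplicit false

namespace Pool.Agent.Helper130.Odell

/-- The norming set of the modified Tsirelson space: the smallest set of finitely supported weights
containing the coordinate weights `e_n` and closed under `(w_0, …, w_{k-1}) ↦ (1/2) ∑ w_i` when the
supports are pairwise disjoint and contained in `[k, ∞)`. -/
inductive KK : (ℕ →₀ ℝ) → Prop
  | single (n : ℕ) : KK (Finsupp.single n 1)
  | node (k : ℕ) (w : Fin k → (ℕ →₀ ℝ)) (h : ∀ i, KK (w i))
      (hd : ∀ i j, i ≠ j → Disjoint (w i).support (w j).support)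
      (hs : ∀ i, ∀ n ∈ (w i).support, k ≤ n) :
      KK ((1 / 2 : ℝ) • ∑ i, w i)

/-- The pairing `∑ₙ wₙ βₙ` of a finitely supported weight with a sequence. -/
noncomputable def pair (w : ℕ →₀ ℝ) (β : ℕ → ℝ) : ℝ := w.sum fun n a => a * β n

theorem pair_eq_sum {w : ℕ →₀ ℝ} {s : Finset ℕ} (h : w.support ⊆ s) (β : ℕ → ℝ) :
    pair w β = ∑ n ∈ s, w n * β n := by
  unfold pair
  exact Finsupp.sum_of_support_subset w h _ (by simp)

theorem pair_zero_left (β : ℕ → ℝ) : pair 0 β = 0 := by simp [pair]

theorem pair_add_left (w w' : ℕ →₀ ℝ) (β : ℕ → ℝ) : pair (w + w') β = pair w β + pair w' β := by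
  unfold pair
  exact Finsupp.sum_add_index' (by simp) (by intros; ring)

theorem pair_smul_left (c : ℝ) (w : ℕ →₀ ℝ) (β : ℕ → ℝ) : pair (c • w) β = c * pair w β := by
  unfold pair
  rw [Finsupp.sum_smul_index' (by simp), Finsupp.mul_sum]
  simp [mul_assoc]

theorem pair_sum_left {ι : Type*} (s : Finset ι) (w : ι → (ℕ →₀ ℝ)) (β : ℕ → ℝ) :
    pair (∑ i ∈ s, w i) β = ∑ i ∈ s, pair (w i) β := by
  classical
  induction s using Finset.induction_on with
  | empty => simp [pair_zero_left]
  | insert a s ha ih => rw [Finset.sum_insert ha, Finset.sum_insert ha, pair_add_left, ih]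

theorem pair_add_right (w : ℕ →₀ ℝ) (β γ : ℕ → ℝ) :
    pair w (fun n => β n + γ n) = pair w β + pair w γ := by
  simp [pair, Finsupp.sum, mul_add, Finset.sum_add_distrib]

theorem pair_mul_right (w : ℕ →₀ ℝ) (c : ℝ) (β : ℕ → ℝ) :
    pair w (fun n => c * β n) = c * pair w β := by
  simp only [pair, Finsupp.sum, Finset.mul_sum]
  exact Finset.sum_congr rfl fun n _ => by ring

theorem pair_sum_right {ι : Type*} (w : ℕ →₀ ℝ) (s : Finset ι) (c : ι → ℝ) (β : ι → ℕ → ℝ) :
    pair w (fun n => ∑ i ∈ s, c i * β i n) = ∑ i ∈ s, c i * pair w (β i) := by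
  simp only [pair, Finsupp.sum, Finset.mul_sum]
  rw [Finset.sum_comm]
  exact Finset.sum_congr rfl fun i _ => Finset.sum_congr rfl fun n _ => by ring

theorem KK.nonneg {w : ℕ →₀ ℝ} (h : KK w) : ∀ n, 0 ≤ w n := by
  induction h with
  | single m =>
    intro n
    rw [Finsupp.single_apply]
    split_ifs <;> norm_num
  | node k w h hd hs ih =>
    intro n
    rw [Finsupp.smul_apply, Finsupp.finsetSum_apply, smul_eq_mul]
    exact mul_nonneg (by norm_num) (Finset.sum_nonneg fun i _ => ih i n)

theorem KK.zero : KK 0 := by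
  have := KK.node 0 (fun i => i.elim0) (fun i => i.elim0) (fun i => i.elim0) (fun i => i.elim0)
  simpa using this

theorem KK.filter {w : ℕ →₀ ℝ} (h : KK w) (p : ℕ → Prop) [DecidablePred p] : KK (w.filter p) := by
  induction h with
  | single m =>
    by_cases hm : p m
    · rw [Finsupp.filter_single_of_pos _ hm]; exact KK.single m
    · rw [Finsupp.filter_single_of_neg _ hm]; exact KK.zero
  | node k w h hd hs ih =>
    have : ((1 / 2 : ℝ) • ∑ i, w i).filter p = (1 / 2 : ℝ) • ∑ i, (w i).filter p := by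
      ext n
      simp only [Finsupp.filter_apply, Finsupp.smul_apply, Finsupp.finsetSum_apply]
      split_ifs <;> simp
    rw [this]
    refine KK.node k _ ih (fun i j hij => ?_) (fun i n hn => ?_)
    · exact (hd i j hij).mono (by rw [Finsupp.support_filter]; exact Finset.filter_subset _ _)
        (by rw [Finsupp.support_filter]; exact Finset.filter_subset _ _)
    · refine hs i n ?_
      rw [Finsupp.support_filter] at hn
      exact (Finset.mem_filter.mp hn).1

/-- A general admissible sum indexed by a finite type. -/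
theorem KK.sum {ι : Type*} [Fintype ι] (m : ℕ) (hm : Fintype.card ι ≤ m) (w : ι → (ℕ →₀ ℝ))
    (h : ∀ i, KK (w i)) (hd : ∀ i j, i ≠ j → Disjoint (w i).support (w j).support)
    (hs : ∀ i, ∀ n ∈ (w i).support, m ≤ n) : KK ((1 / 2 : ℝ) • ∑ i, w i) := by
  let e := Fintype.equivFin ι
  have := KK.node (Fintype.card ι) (fun i => w (e.symm i)) (fun i => h _)
    (fun i j hij => hd _ _ (fun hc => hij (e.symm.injective hc)))
    (fun i n hn => hm.trans (hs _ n hn))
  rwa [Equiv.sum_comp e.symm w] at this

end Pool.Agent.Helper130.Odell
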