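import Pool.Agent.Helper130.Odell.Good

set_option autoImplicit false

open Filter Topology

namespace Pool.Agent.Helper130.Odell

variable {𝕜 : Type*} [RCLike 𝕜]
variable {Y : Type*} [NormedAddCommGroup Y] [NormedSpace 𝕜 Y]
variable {Z : Type*} [NormedAddCommGroup Z] [NormedSpace 𝕜 Z]

/-- Recursive choice with dependence on the whole history. -/
theorem exists_hist {α : Type*} (Q : ℕ → (ℕ → α) → α → Prop)
    (hcongr : ∀ n v v' a, (∀ i < n, v i = v' i) → Q n v a → Q n v' a)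
    (h : ∀ n v, ∃ a, Q n v a) (a0 : α) : ∃ v : ℕ → α, ∀ n, Q n v (v n) := by
  classical
  let F : (n : ℕ) → ((m : ℕ) → m < n → α) → α := fun n f =>
    (h n (fun i => if hi : i < n then f i hi else a0)).choose
  let v : ℕ → α := WellFounded.fix Nat.lt_wfRel.wf F
  have hv : ∀ n, v n = F n (fun m _ => v m) := fun n => WellFounded.fix_eq _ _ _
  refine ⟨v, fun n => ?_⟩
  have h1 := (h n (fun i => if hi : i < n then v i else a0)).choose_spec
  have h2 : v n = (h n (fun i => if hi : i < n then v i else a0)).choose := hv n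
  rw [← h2] at h1
  refine hcongr n _ v _ (fun i hi => ?_) h1
  simp [hi]

theorem sum_half_le (k : ℕ) : ∑ i : Fin k, (1 / 2 : ℝ) ^ ((i : ℕ) + 1) ≤ 1 := by
  rw [Fin.sum_univ_eq_sum_range (fun i => (1 / 2 : ℝ) ^ (i + 1)) k]
  have h : ∀ k : ℕ, ∑ i ∈ Finset.range k, (1 / 2 : ℝ) ^ (i + 1) = 1 - (1 / 2) ^ k := by
    intro k
    induction k with
    | zero => simp
    | succ k ih => rw [Finset.sum_range_succ, ih]; ring
  rw [h]
  have : (0 : ℝ) < (1 / 2) ^ k := by positivity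
  linarith

/-- Lower estimate for nearly block sequences. -/
theorem near_block_lower {B θ : ℝ} (hB : 1 ≤ B) (hθ0 : 0 ≤ θ) (hθ : 2 * B * θ ≤ 1 / 4)
    (E : ℕ → Y →L[𝕜] Y) (hE : ∀ n, ‖E n‖ ≤ B)
    (hE1 : ∀ m n, m ≤ n → ∀ y, E m (E n y) = E m y)
    (u : ℕ → Y) (N : ℕ → ℕ) (hN : ∀ n, N n ≤ N (n + 1))
    (hu : ∀ j, 1 / 2 ≤ ‖u j‖)
    (hc : ∀ j, ‖E (N j) (u j)‖ ≤ θ * (1 / 4) ^ (j + 1))
    (hd : ∀ j, ∀ i ≤ j, ‖u i - E (N (j + 1)) (u i)‖ ≤ θ * (1 / 4) ^ (j + 1))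
    (k : ℕ) (a : Fin k → 𝕜) (i : Fin k) :
    ‖a i‖ ≤ 8 * B * ‖∑ j : Fin k, a j • u j‖ := by
  have : Nonempty (Fin k) := ⟨i⟩
  obtain ⟨j, hj⟩ := Finite.exists_max fun i => ‖a i‖
  refine (hj i).trans ?_
  have hNm : Monotone N := monotone_nat_of_le_succ hN
  set Δ : Y →L[𝕜] Y := E (N (j + 1)) - E (N j) with hΔ
  have hΔn : ∀ z, ‖Δ z‖ ≤ 2 * B * ‖z‖ := by
    intro z
    rw [hΔ, _root_.sub_apply]
    calc ‖E (N (j + 1)) z - E (N j) z‖ ≤ ‖E (N (j + 1)) z‖ + ‖E (N j) z‖ := norm_sub_le _ _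
      _ ≤ B * ‖z‖ + B * ‖z‖ := by
        refine add_le_add ((E _).le_of_opNorm_le (hE _) z) ((E _).le_of_opNorm_le (hE _) z)
      _ = 2 * B * ‖z‖ := by ring
  have hpow : ∀ n : ℕ, (1 / 4 : ℝ) ^ n ≤ (1 / 2) ^ n := fun n =>
    pow_le_pow_left₀ (by norm_num) (by norm_num) n
  have herr : ∀ i : Fin k, ‖Δ (u i) - (if i = j then u j else 0)‖ ≤
      2 * B * θ * (1 / 2) ^ ((i : ℕ) + 1) := by
    intro i
    rcases lt_trichotomy i j with hij | hij | hij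
    · rw [if_neg hij.ne, sub_zero]
      obtain ⟨j', hj'⟩ : ∃ j', (j : ℕ) = j' + 1 := ⟨(j : ℕ) - 1, by omega⟩
      have e1 := hd j i (le_of_lt hij)
      have e2 := hd j' i (by omega)
      rw [← hj'] at e2
      have e3 : Δ (u i) = (u i - E (N j) (u i)) - (u i - E (N (j + 1)) (u i)) := by
        rw [hΔ, _root_.sub_apply]
        abel
      rw [e3]
      have e4 : (1 / 4 : ℝ) ^ ((j : ℕ) + 1) ≤ (1 / 4) ^ (j : ℕ) :=
        pow_le_pow_of_le_one (by norm_num) (by norm_num) (by omega)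
      have e5 : (1 / 4 : ℝ) ^ (j : ℕ) ≤ (1 / 2) ^ ((i : ℕ) + 1) :=
        (hpow _).trans (pow_le_pow_of_le_one (by norm_num) (by norm_num) (by omega))
      calc _ ≤ ‖u i - E (N j) (u i)‖ + ‖u i - E (N (j + 1)) (u i)‖ := norm_sub_le _ _
        _ ≤ θ * (1 / 4) ^ (j : ℕ) + θ * (1 / 4) ^ ((j : ℕ) + 1) := add_le_add e2 e1
        _ ≤ θ * (1 / 2) ^ ((i : ℕ) + 1) + θ * (1 / 2) ^ ((i : ℕ) + 1) := by
          gcongr
          exact e4.trans e5
        _ = 2 * 1 * θ * (1 / 2) ^ ((i : ℕ) + 1) := by ring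
        _ ≤ 2 * B * θ * (1 / 2) ^ ((i : ℕ) + 1) := by gcongr
    · subst hij
      rw [if_pos rfl]
      have e3 : Δ (u i) - u i = -(u i - E (N (i + 1)) (u i)) - E (N i) (u i) := by
        rw [hΔ, _root_.sub_apply]
        abel
      rw [e3]
      calc _ ≤ ‖-(u i - E (N (i + 1)) (u i))‖ + ‖E (N i) (u i)‖ := norm_sub_le _ _
        _ ≤ θ * (1 / 4) ^ ((i : ℕ) + 1) + θ * (1 / 4) ^ ((i : ℕ) + 1) := by
          rw [norm_neg]
          exact add_le_add (hd i i le_rfl) (hc i)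
        _ ≤ θ * (1 / 2) ^ ((i : ℕ) + 1) + θ * (1 / 2) ^ ((i : ℕ) + 1) := by
          gcongr <;> norm_num
        _ = 2 * 1 * θ * (1 / 2) ^ ((i : ℕ) + 1) := by ring
        _ ≤ 2 * B * θ * (1 / 2) ^ ((i : ℕ) + 1) := by gcongr
    · rw [if_neg hij.ne', sub_zero]
      have e1 : N (j + 1) ≤ N i := hNm (by omega)
      have e2 : N j ≤ N i := hNm (by omega)
      have e3 : Δ (u i) = E (N (j + 1)) (E (N i) (u i)) - E (N j) (E (N i) (u i)) := by
        rw [hΔ, _root_.sub_apply, hE1 _ _ e1, hE1 _ _ e2]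
      rw [e3]
      calc _ ≤ ‖E (N (j + 1)) (E (N i) (u i))‖ + ‖E (N j) (E (N i) (u i))‖ := norm_sub_le _ _
        _ ≤ B * (θ * (1 / 4) ^ ((i : ℕ) + 1)) + B * (θ * (1 / 4) ^ ((i : ℕ) + 1)) := by
          refine add_le_add ?_ ?_
          · refine ((E _).le_of_opNorm_le (hE _) _).trans ?_
            exact mul_le_mul_of_nonneg_left (hc i) (by linarith)
          · refine ((E _).le_of_opNorm_le (hE _) _).trans ?_
            exact mul_le_mul_of_nonneg_left (hc i) (by linarith)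
        _ ≤ B * (θ * (1 / 2) ^ ((i : ℕ) + 1)) + B * (θ * (1 / 2) ^ ((i : ℕ) + 1)) := by
          gcongr <;> norm_num
        _ = 2 * B * θ * (1 / 2) ^ ((i : ℕ) + 1) := by ring
  have h1 : Δ (∑ i : Fin k, a i • u i) - a j • u j =
      ∑ i : Fin k, a i • (Δ (u i) - (if i = j then u j else 0)) := by
    simp only [map_sum, map_smul, smul_sub, Finset.sum_sub_distrib]
    congr 1
    simp [Finset.sum_ite_eq']
  have h2 : ‖Δ (∑ i : Fin k, a i • u i) - a j • u j‖ ≤ ‖a j‖ * (1 / 4) := by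
    rw [h1]
    calc _ ≤ ∑ i : Fin k, ‖a j‖ * (2 * B * θ * (1 / 2) ^ ((i : ℕ) + 1)) := by
          refine (norm_sum_le _ _).trans (Finset.sum_le_sum fun i _ => ?_)
          rw [norm_smul]
          exact mul_le_mul (hj i) (herr i) (norm_nonneg _) (norm_nonneg _)
      _ = ‖a j‖ * (2 * B * θ) * ∑ i : Fin k, (1 / 2 : ℝ) ^ ((i : ℕ) + 1) := by
          rw [Finset.mul_sum]
          exact Finset.sum_congr rfl fun i _ => by ring
      _ ≤ ‖a j‖ * (2 * B * θ) * 1 := by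
          gcongr
          exact sum_half_le k
      _ ≤ ‖a j‖ * (1 / 4) := by
          rw [mul_one]
          gcongr
  have h3 : ‖a j‖ * (1 / 2) ≤ ‖a j • u j‖ := by
    rw [norm_smul]
    exact mul_le_mul_of_nonneg_left (hu j) (norm_nonneg _)
  have h4 : ‖a j • u j‖ ≤ ‖Δ (∑ i : Fin k, a i • u i)‖ +
      ‖Δ (∑ i : Fin k, a i • u i) - a j • u j‖ := by
    have := norm_sub_le (Δ (∑ i : Fin k, a i • u i)) (Δ (∑ i : Fin k, a i • u i) - a j • u j)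
    rwa [sub_sub_cancel] at this
  have h5 := hΔn (∑ i : Fin k, a i • u i)
  linarith

theorem hilb_of_near {B C : ℝ} (hB : 0 ≤ B) {E : ℕ → Z →L[𝕜] Z} (hE : ∀ n, ‖E n‖ ≤ B)
    (hFR : ∀ n, FR (E n)) (hE1 : ∀ m n, m ≤ n → ∀ y, E m (E n y) = E m y)
    (hfar : ∀ k : ℕ, ∃ n, ∀ F : Submodule 𝕜 Z, FiniteDimensional 𝕜 F →
      Module.finrank 𝕜 F ≤ k → (∀ x ∈ F, E n x = 0) → Hilb C F)
    {c : ℝ} (hc : 1 ≤ c) {S : Y →L[𝕜] Z} (hS : Near c S) (F : Submodule 𝕜 Y)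
    [FiniteDimensional 𝕜 F] {τ : ℝ} (hτ : B * τ ≤ 1 / (4 * c)) (hSF : ∀ y ∈ F, ‖S y‖ ≤ τ * ‖y‖) :
    Hilb ((c + 1) ^ 2 * (2 * c) ^ 2 * C) F := by
  obtain ⟨n, hn⟩ := hfar (Module.finrank 𝕜 F)
  obtain ⟨V, a1, a2, a3⟩ := hS.exists_sub F (E n) (hFR n) (η := 1 / (4 * c)) (by positivity)
  have hEV : ∀ y ∈ F, ‖E n (V y)‖ ≤ 1 / (2 * c) * ‖y‖ := by
    intro y hy
    have e1 : E n (V y) = E n (V y - S y) + E n (S y) := by rw [map_sub]; abel
    rw [e1]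
    calc _ ≤ ‖E n (V y - S y)‖ + ‖E n (S y)‖ := norm_add_le _ _
      _ ≤ 1 / (4 * c) * ‖y‖ + B * (τ * ‖y‖) := by
        refine add_le_add (a3 y hy) (((E n).le_of_opNorm_le (hE n) _).trans ?_)
        exact mul_le_mul_of_nonneg_left (hSF y hy) hB
      _ = 1 / (4 * c) * ‖y‖ + (B * τ) * ‖y‖ := by ring
      _ ≤ 1 / (4 * c) * ‖y‖ + 1 / (4 * c) * ‖y‖ := by gcongr
      _ = 1 / (2 * c) * ‖y‖ := by ring
  have hV : ∀ y, ‖V y‖ ≤ c * ‖y‖ := fun y =>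
    (V : Y →L[𝕜] Z).le_of_opNorm_le a1 y
  have hV' : ∀ y, ‖y‖ ≤ c * ‖V y‖ := fun y => by
    have := (V.symm : Z →L[𝕜] Y).le_of_opNorm_le a2 (V y)
    simpa using this
  have hc0 : 0 < c := by linarith
  have hcc : 1 / (2 * c) ≤ 1 := by
    rw [div_le_iff₀ (by positivity)]
    linarith
  let L : Y →L[𝕜] Z := (V : Y →L[𝕜] Z) - (E n).comp (V : Y →L[𝕜] Z)
  have hL : ∀ y, L y = V y - E n (V y) := fun y => rfl
  have hHil := hn (F.map (L : Y →ₗ[𝕜] Z)) inferInstance (Submodule.finrank_map_le _ _) (by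
    rintro _ ⟨y, _, rfl⟩
    change E n (L y) = 0
    rw [hL, map_sub, hE1 n n le_rfl, sub_self])
  refine hHil.transport (L : Y →ₗ[𝕜] Z) (by linarith) (by linarith) (fun y hy => ?_)
    (fun y hy => ?_)
  · change ‖L y‖ ≤ _
    rw [hL]
    calc _ ≤ ‖V y‖ + ‖E n (V y)‖ := norm_sub_le _ _
      _ ≤ c * ‖y‖ + 1 / (2 * c) * ‖y‖ := add_le_add (hV y) (hEV y hy)
      _ ≤ c * ‖y‖ + 1 * ‖y‖ := by gcongr
      _ = (c + 1) * ‖y‖ := by ring
  · change _ ≤ 2 * c * ‖L y‖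
    have e1 : ‖V y‖ ≤ ‖L y‖ + ‖E n (V y)‖ := by
      have := norm_add_le (L y) (E n (V y))
      rwa [hL, sub_add_cancel] at this
    have e2 := hEV y hy
    have e3 := hV' y
    have e4 : c * ‖V y‖ ≤ c * ‖L y‖ + c * (1 / (2 * c) * ‖y‖) := by
      calc c * ‖V y‖ ≤ c * (‖L y‖ + ‖E n (V y)‖) := by gcongr
        _ ≤ c * (‖L y‖ + 1 / (2 * c) * ‖y‖) := by gcongr
        _ = _ := by ring
    have e5 : c * (1 / (2 * c) * ‖y‖) = ‖y‖ / 2 := by field_simp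
    linarith

theorem fd_le_span (u : ℕ → Y) (F : Submodule 𝕜 Y) [FiniteDimensional 𝕜 F]
    (hF : F ≤ Submodule.span 𝕜 (Set.range u)) :
    ∃ k, F ≤ Submodule.span 𝕜 (Set.range fun j : Fin k => u j) := by
  have hmono : ∀ k l : ℕ, k ≤ l → Submodule.span 𝕜 (Set.range fun j : Fin k => u j) ≤
      Submodule.span 𝕜 (Set.range fun j : Fin l => u j) := by
    intro k l hkl
    refine Submodule.span_mono ?_
    rintro _ ⟨j, rfl⟩
    exact ⟨⟨j, by omega⟩, rfl⟩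
  have hel : ∀ y ∈ Submodule.span 𝕜 (Set.range u),
      ∃ k, y ∈ Submodule.span 𝕜 (Set.range fun j : Fin k => u j) := by
    intro y hy
    induction hy using Submodule.span_induction with
    | mem x hx =>
      obtain ⟨j, rfl⟩ := hx
      exact ⟨j + 1, Submodule.subset_span ⟨⟨j, by omega⟩, rfl⟩⟩
    | zero => exact ⟨0, Submodule.zero_mem _⟩
    | add x y _ _ hx hy =>
      obtain ⟨k, hk⟩ := hx
      obtain ⟨l, hl⟩ := hy
      exact ⟨max k l, Submodule.add_mem _ (hmono _ _ (le_max_left _ _) hk)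
        (hmono _ _ (le_max_right _ _) hl)⟩
    | smul c x _ hx =>
      obtain ⟨k, hk⟩ := hx
      exact ⟨k, Submodule.smul_mem _ _ hk⟩
  let b := Module.finBasis 𝕜 F
  choose k hk using fun i => hel (b i : Y) (hF (b i).2)
  obtain ⟨M, hM⟩ : ∃ M : ℕ, ∀ i, k i ≤ M :=
    ⟨∑ i, k i, fun i => Finset.single_le_sum (fun _ _ => Nat.zero_le _) (Finset.mem_univ i)⟩
  refine ⟨M, fun y hy => ?_⟩
  have h1 : y = ∑ i, b.repr ⟨y, hy⟩ i • (b i : Y) := by
    have := congrArg (Subtype.val) (b.sum_repr ⟨y, hy⟩)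
    rw [AddSubmonoidClass.coe_finsetSum] at this
    simp only [Submodule.coe_smul] at this
    exact this.symm
  rw [h1]
  exact Submodule.sum_mem _ fun i _ => Submodule.smul_mem _ _ (hmono _ _ (hM i) (hk i))

end Pool.Agent.Helper130.Odell
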