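import Pool.Agent.Helper130.Odell.Main1

set_option autoImplicit false

open Filter Topology

namespace Pool.Agent.Helper130.Odell

variable {𝕜 : Type*} [RCLike 𝕜]
variable {Y : Type*} [NormedAddCommGroup Y] [NormedSpace 𝕜 Y]

/-- The condition on the `n`-th choice. -/
def Cond (E : ℕ → Y →L[𝕜] Y) (D : Y →L[𝕜] Y) (x : Y) (θ : ℝ) :
    ℕ → (ℕ → (Y ≃L[𝕜] Y) × ℕ) → (Y ≃L[𝕜] Y) × ℕ → Prop
  | 0, _, a => a = (ContinuousLinearEquiv.refl 𝕜 Y, 0)
  | n + 1, v, a =>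
    ‖((a.1.trans (v n).1.symm : Y ≃L[𝕜] Y) : Y →L[𝕜] Y)‖ ≤ 1 + (1 / 2) ^ (n + 1) / 8 ∧
    ‖(((v n).1.trans a.1.symm : Y ≃L[𝕜] Y) : Y →L[𝕜] Y)‖ ≤ 1 + (1 / 2) ^ (n + 1) / 8 ∧
    (∀ i ≤ n, ‖D ((v i).1.symm (a.1 x))‖ ≤ θ * (1 / 4) ^ (n + 1)) ∧
    ‖E (v n).2 (a.1 x)‖ ≤ θ * (1 / 4) ^ (n + 1) ∧
    (v n).2 ≤ a.2 ∧
    (∀ i ≤ n, ‖(v i).1 x - E a.2 ((v i).1 x)‖ ≤ θ * (1 / 4) ^ (n + 1)) ∧
    ‖a.1 x - E a.2 (a.1 x)‖ ≤ θ * (1 / 4) ^ (n + 1)

theorem cond_congr (E : ℕ → Y →L[𝕜] Y) (D : Y →L[𝕜] Y) (x : Y) (θ : ℝ) (n : ℕ)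
    (v v' : ℕ → (Y ≃L[𝕜] Y) × ℕ) (a : (Y ≃L[𝕜] Y) × ℕ) (h : ∀ i < n, v i = v' i)
    (hv : Cond E D x θ n v a) : Cond E D x θ n v' a := by
  cases n with
  | zero => exact hv
  | succ n =>
    obtain ⟨h1, h2, h3, h4, h5, h6, h7⟩ := hv
    rw [h n (by omega)] at h1 h2 h4 h5
    refine ⟨h1, h2, fun i hi => ?_, h4, h5, fun i hi => ?_, h7⟩
    · rw [← h i (by omega)]; exact h3 i hi
    · rw [← h i (by omega)]; exact h6 i hi

theorem cond_exists (E : ℕ → Y →L[𝕜] Y) (hFR : ∀ n, FR (E n))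
    (hlim : ∀ y, Tendsto (fun n => E n y) atTop (𝓝 y)) (D : Y →L[𝕜] Y) (hD : FR D) (x : Y)
    {θ : ℝ} (hθ : 0 < θ) (P : Y →L[𝕜] Y) (hP : ∀ c, 1 < c → Near c P) (hPx : P x = 0) (n : ℕ)
    (v : ℕ → (Y ≃L[𝕜] Y) × ℕ) : ∃ a, Cond E D x θ n v a := by
  cases n with
  | zero => exact ⟨_, rfl⟩
  | succ n =>
    have hc : (1 : ℝ) < 1 + (1 / 2) ^ (n + 1) / 8 := by
      have : (0 : ℝ) < (1 / 2) ^ (n + 1) / 8 := by positivity
      linarith
    have hη : 0 < θ * (1 / 4 : ℝ) ^ (n + 1) := by positivity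
    let G : Option (Fin (n + 1)) → Y →L[𝕜] Y := fun o => match o with
      | none => (E (v n).2).comp ((v n).1 : Y →L[𝕜] Y)
      | some i => D.comp (((v i).1.symm : Y →L[𝕜] Y).comp ((v n).1 : Y →L[𝕜] Y))
    have hG : ∀ o, FR (G o) := by
      intro o
      cases o with
      | none => exact (hFR _).comp_right _
      | some i => exact hD.comp_right _
    obtain ⟨V, a1, a2, a3⟩ := (hP _ hc).exists_fin (fun _ => x) G hG hη
    simp only [hPx, sub_zero] at a3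
    let U : Y ≃L[𝕜] Y := V.trans (v n).1
    have hev : ∀ z : Y, ∀ᶠ m in atTop, ‖z - E m z‖ ≤ θ * (1 / 4 : ℝ) ^ (n + 1) := by
      intro z
      have h1 : Tendsto (fun m => z - E m z) atTop (𝓝 (z - z)) := (hlim z).const_sub z
      rw [sub_self] at h1
      have h2 := h1.norm
      rw [norm_zero] at h2
      exact (h2.eventually (gt_mem_nhds hη)).mono fun m hm => hm.le
    have hev2 : ∀ᶠ m in atTop, ∀ i ∈ Finset.range (n + 1),
        ‖(v i).1 x - E m ((v i).1 x)‖ ≤ θ * (1 / 4 : ℝ) ^ (n + 1) := by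
      rw [Filter.eventually_all_finset]
      intro i _
      exact hev _
    obtain ⟨m, ⟨hm1, hm2⟩, hm3⟩ := ((hev2.and (hev (U x))).and (eventually_ge_atTop (v n).2)).exists
    refine ⟨(U, m), ?_, ?_, ?_, ?_, hm3, fun i hi => hm1 i (Finset.mem_range.mpr (by omega)), hm2⟩
    · have : ((U.trans (v n).1.symm : Y ≃L[𝕜] Y) : Y →L[𝕜] Y) = (V : Y →L[𝕜] Y) := by
        ext z; simp [U]
      simp only
      rw [this]
      exact a1
    · have : (((v n).1.trans U.symm : Y ≃L[𝕜] Y) : Y →L[𝕜] Y) = (V.symm : Y →L[𝕜] Y) := by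
        ext z; simp [U]
      simp only
      rw [this]
      exact a2
    · intro i hi
      exact a3 (some ⟨i, by omega⟩)
    · exact a3 none

/-- The growth bound. -/
theorem growth (n : ℕ) :
    (1 + (1 / 2 : ℝ) ^ (n + 1) / 8) * ((1 + (1 / 2) ^ (n + 1) / 8) * (2 - (1 / 2) ^ n)) ≤
      2 - (1 / 2) ^ (n + 1) := by
  have h1 : (0 : ℝ) < (1 / 2) ^ n := by positivity
  have h2 : ((1 : ℝ) / 2) ^ n ≤ 1 := pow_le_one₀ (by norm_num) (by norm_num)
  have h3 : ((1 : ℝ) / 2) ^ (n + 1) = (1 / 2) ^ n / 2 := by rw [pow_succ]; ring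
  rw [h3]
  set t := ((1 : ℝ) / 2) ^ n
  nlinarith [mul_nonneg h1.le h1.le, mul_nonneg (mul_nonneg h1.le h1.le) h1.le]

theorem growth' (n : ℕ) :
    (1 + (1 / 2 : ℝ) ^ (n + 1) / 8) * (2 - (1 / 2) ^ n) ≤ 2 - (1 / 2) ^ (n + 1) := by
  refine le_trans ?_ (growth n)
  have h0 : (0 : ℝ) ≤ (1 / 2) ^ (n + 1) / 8 := by positivity
  have h2 : ((1 : ℝ) / 2) ^ n ≤ 1 := pow_le_one₀ (by norm_num) (by norm_num)
  have h3 : 0 ≤ (1 + (1 / 2 : ℝ) ^ (n + 1) / 8) * (2 - (1 / 2) ^ n) :=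
    mul_nonneg (by linarith) (by linarith)
  nlinarith

/-- Main lemma: the only idempotent limit of near isometries of a good space is the identity. -/
theorem main_lemma (hY : Good 𝕜 Y) (P : Y →L[𝕜] Y) (hPP : ∀ y, P (P y) = P y)
    (hP : ∀ c, 1 < c → Near c P) : ∀ y, P y = y := by
  obtain ⟨B₀, C, E, hB₀, hFR, hlim, hE1, hE2, hfar⟩ := hY.far
  obtain ⟨B, hB1, hB⟩ : ∃ B : ℝ, 1 ≤ B ∧ ∀ n, ‖E n‖ ≤ B :=
    ⟨max B₀ 1, le_max_right _ _, fun n => (hB₀ n).trans (le_max_left _ _)⟩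
  have hPn : ‖P‖ ≤ 1 := le_of_forall_gt_imp_ge_of_dense fun c hc => (hP c hc).norm_le
  have hP1 : ∀ y, ‖P y‖ ≤ ‖y‖ := fun y => by
    have := P.le_of_opNorm_le hPn y
    rwa [one_mul] at this
  -- the kernel of `P` is finite-dimensional
  have hker : FiniteDimensional 𝕜 (LinearMap.ker (P : Y →ₗ[𝕜] Y)) := by
    refine hY.nh ((2 + 1) ^ 2 * (2 * 2) ^ 2 * C) _ fun F hF hFd => ?_
    refine hilb_of_near (by linarith) hB hFR hE1 hfar (by norm_num) (hP 2 (by norm_num)) F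
      (τ := 0) (by norm_num) fun y hy => ?_
    have : P y = 0 := hF hy
    rw [this]
    simp
  by_contra hcon
  push Not at hcon
  obtain ⟨y₀, hy₀⟩ := hcon
  -- a unit vector in the kernel
  obtain ⟨x, hx1, hPx⟩ : ∃ x : Y, ‖x‖ = 1 ∧ P x = 0 := by
    have h0 : ‖y₀ - P y₀‖ ≠ 0 := by
      rw [norm_ne_zero_iff, sub_ne_zero]
      exact fun h => hy₀ h.symm
    refine ⟨((‖y₀ - P y₀‖⁻¹ : ℝ) : 𝕜) • (y₀ - P y₀), ?_, ?_⟩
    · rw [norm_smul, RCLike.norm_ofReal, abs_of_nonneg (by positivity)]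
      exact inv_mul_cancel₀ h0
    · rw [map_smul, map_sub, hPP, sub_self, smul_zero]
  let D : Y →L[𝕜] Y := ContinuousLinearMap.id 𝕜 Y - P
  have hDapp : ∀ y, D y = y - P y := fun y => rfl
  have hD : FR D := by
    refine Submodule.finiteDimensional_of_le (S₂ := LinearMap.ker (P : Y →ₗ[𝕜] Y)) ?_
    rintro _ ⟨y, rfl⟩
    change P (D y) = 0
    rw [hDapp, map_sub, hPP, sub_self]
  set θ : ℝ := 1 / (128 * B ^ 2) with hθdef
  have hθ : 0 < θ := by positivity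
  have hθB : 16 * B ^ 2 * θ = 1 / 8 := by
    rw [hθdef]
    field_simp
    norm_num
  have hθB' : 2 * B * θ ≤ 1 / 4 := by
    have : 2 * B * θ ≤ 2 * B ^ 2 * θ := by
      have : B ≤ B ^ 2 := by nlinarith
      gcongr
    nlinarith
  obtain ⟨v, hv⟩ := exists_hist (Cond E D x θ) (cond_congr E D x θ)
    (cond_exists E hFR hlim D hD x hθ P hP hPx) (ContinuousLinearEquiv.refl 𝕜 Y, 0)
  have hv0 : v 0 = (ContinuousLinearEquiv.refl 𝕜 Y, 0) := hv 0
  have hvs : ∀ n, Cond E D x θ (n + 1) v (v (n + 1)) := fun n => hv (n + 1)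
  -- norms of the products
  have hUinv : ∀ n, ∀ z, ‖(v n).1.symm z‖ ≤ (2 - (1 / 2) ^ n) * ‖z‖ := by
    intro n
    induction n with
    | zero => intro z; rw [hv0]; norm_num
    | succ n ih =>
      intro z
      have h1 := (((v n).1.trans (v (n + 1)).1.symm : Y ≃L[𝕜] Y) : Y →L[𝕜] Y).le_of_opNorm_le
        (hvs n).2.1 ((v n).1.symm z)
      have h2 : (((v n).1.trans (v (n + 1)).1.symm : Y ≃L[𝕜] Y) : Y →L[𝕜] Y) ((v n).1.symm z) =
          (v (n + 1)).1.symm z := by simp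
      rw [h2] at h1
      have h0 : (0 : ℝ) ≤ (1 / 2) ^ (n + 1) / 8 := by positivity
      calc _ ≤ _ := h1
        _ ≤ (1 + (1 / 2) ^ (n + 1) / 8) * ((2 - (1 / 2) ^ n) * ‖z‖) := by
          gcongr
          exact ih z
        _ = ((1 + (1 / 2) ^ (n + 1) / 8) * (2 - (1 / 2) ^ n)) * ‖z‖ := by ring
        _ ≤ _ := by gcongr; exact growth' n
  have hu_low : ∀ n, 1 / 2 ≤ ‖(v n).1 x‖ := by
    intro n
    have h1 := hUinv n ((v n).1 x)
    rw [ContinuousLinearEquiv.symm_apply_apply, hx1] at h1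
    have h2 : (2 - (1 / 2 : ℝ) ^ n) ≤ 2 := by
      have : (0 : ℝ) < (1 / 2) ^ n := by positivity
      linarith
    have h3 : (2 - (1 / 2 : ℝ) ^ n) * ‖(v n).1 x‖ ≤ 2 * ‖(v n).1 x‖ := by gcongr
    linarith
  -- lower estimate
  have hlower : ∀ (k : ℕ) (a : Fin k → 𝕜) (i : Fin k),
      ‖a i‖ ≤ 8 * B * ‖∑ j : Fin k, a j • (v (j + 1)).1 x‖ := by
    intro k a i
    refine near_block_lower hB1 hθ.le hθB' E hB hE1 (fun j => (v (j + 1)).1 x)
      (fun j => (v j).2) (fun n => (hvs n).2.2.2.2.1) (fun j => hu_low (j + 1))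
      (fun j => (hvs j).2.2.2.1) (fun j i hij => ?_) k a i
    rcases Nat.lt_or_ge i j with h | h
    · exact (hvs j).2.2.2.2.2.1 (i + 1) (by omega)
    · have : i = j := le_antisymm hij h
      subst this
      exact (hvs i).2.2.2.2.2.2
  -- the operators `S n`
  let R : ℕ → Y →L[𝕜] Y := fun n =>
    P.comp (((v n).1.trans (v (n + 1)).1.symm : Y ≃L[𝕜] Y) : Y →L[𝕜] Y)
  let S : ℕ → Y →L[𝕜] Y := fun n => Nat.rec (ContinuousLinearMap.id 𝕜 Y) (fun n T => (R n).comp T) n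
  have hS0 : S 0 = ContinuousLinearMap.id 𝕜 Y := rfl
  have hSs : ∀ n z, S (n + 1) z = P ((v (n + 1)).1.symm ((v n).1 (S n z))) := fun n z => rfl
  have hSs' : ∀ n, S (n + 1) = (R n).comp (S n) := fun n => rfl
  have hSnear : ∀ n, Near (2 - (1 / 2) ^ n) (S n) := by
    intro n
    induction n with
    | zero =>
      rw [hS0]
      have : (2 - (1 / 2 : ℝ) ^ 0) = 1 := by norm_num
      rw [this]
      exact Near.of_equiv (ContinuousLinearEquiv.refl 𝕜 Y) ContinuousLinearMap.norm_id_le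
        ContinuousLinearMap.norm_id_le
    | succ n ih =>
      rw [hSs']
      have hc : (1 : ℝ) < 1 + (1 / 2) ^ (n + 1) / 8 := by
        have : (0 : ℝ) < (1 / 2) ^ (n + 1) / 8 := by positivity
        linarith
      have h1 : Near (1 + (1 / 2 : ℝ) ^ (n + 1) / 8)
          (((v n).1.trans (v (n + 1)).1.symm : Y ≃L[𝕜] Y) : Y →L[𝕜] Y) :=
        Near.of_equiv _ (hvs n).2.1 (hvs n).1
      have h2 := ((hP _ hc).comp h1).comp ih
      refine h2.mono ?_
      rw [mul_assoc]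
      exact growth n
  have hRle : ∀ n z, ‖R n z‖ ≤ (1 + (1 / 2) ^ (n + 1) / 8) * ‖z‖ := by
    intro n z
    refine (hP1 _).trans ?_
    exact (((v n).1.trans (v (n + 1)).1.symm : Y ≃L[𝕜] Y) : Y →L[𝕜] Y).le_of_opNorm_le
      (hvs n).2.1 z
  -- `S i` maps `u j` close to `U i ⁻¹ (u j)` for `i < j`
  have hSu : ∀ j i, i < j → ‖S i ((v j).1 x) - (v i).1.symm ((v j).1 x)‖ ≤
      (2 - (1 / 2) ^ i) * (i * (θ * (1 / 4) ^ j)) := by
    intro j i
    induction i with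
    | zero =>
      intro _
      rw [hS0, hv0]
      simp
    | succ i ih =>
      intro hij
      have h1 := ih (by omega)
      obtain ⟨j', rfl⟩ : ∃ j', j = j' + 1 := ⟨j - 1, by omega⟩
      have h2 := (hvs j').2.2.1 (i + 1) (by omega)
      rw [hDapp] at h2
      have h3 : S (i + 1) ((v (j' + 1)).1 x) - (v (i + 1)).1.symm ((v (j' + 1)).1 x) =
          R i (S i ((v (j' + 1)).1 x) - (v i).1.symm ((v (j' + 1)).1 x)) -
          ((v (i + 1)).1.symm ((v (j' + 1)).1 x) - P ((v (i + 1)).1.symm ((v (j' + 1)).1 x))) := by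
        rw [map_sub, hSs']
        simp [R]
      rw [h3]
      have h4 := hRle i (S i ((v (j' + 1)).1 x) - (v i).1.symm ((v (j' + 1)).1 x))
      have hη : 0 ≤ θ * (1 / 4 : ℝ) ^ (j' + 1) := by positivity
      have hg := growth' i
      have h0 : (0 : ℝ) ≤ (1 / 2) ^ (i + 1) / 8 := by positivity
      have h6 : (1 : ℝ) ≤ 2 - (1 / 2) ^ (i + 1) := by
        have : ((1 : ℝ) / 2) ^ (i + 1) ≤ 1 := pow_le_one₀ (by norm_num) (by norm_num)
        linarith
      calc _ ≤ ‖R i (S i ((v (j' + 1)).1 x) - (v i).1.symm ((v (j' + 1)).1 x))‖ +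
            ‖(v (i + 1)).1.symm ((v (j' + 1)).1 x) -
              P ((v (i + 1)).1.symm ((v (j' + 1)).1 x))‖ := norm_sub_le _ _
        _ ≤ (1 + (1 / 2) ^ (i + 1) / 8) * ((2 - (1 / 2) ^ i) * (i * (θ * (1 / 4) ^ (j' + 1)))) +
            θ * (1 / 4) ^ (j' + 1) := by
          refine add_le_add (h4.trans ?_) h2
          gcongr
        _ = ((1 + (1 / 2) ^ (i + 1) / 8) * (2 - (1 / 2) ^ i)) * (i * (θ * (1 / 4) ^ (j' + 1))) +
            θ * (1 / 4) ^ (j' + 1) := by ring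
        _ ≤ (2 - (1 / 2) ^ (i + 1)) * (i * (θ * (1 / 4) ^ (j' + 1))) +
            (2 - (1 / 2) ^ (i + 1)) * (θ * (1 / 4) ^ (j' + 1)) := by
          refine add_le_add ?_ ?_
          · exact mul_le_mul_of_nonneg_right hg (by positivity)
          · nlinarith
        _ = _ := by push_cast; ring
  have hSk : ∀ j k, j + 1 ≤ k → ‖S k ((v (j + 1)).1 x)‖ ≤
      (2 - (1 / 2) ^ k) * ((j + 1) * (θ * (1 / 4) ^ (j + 1))) := by
    intro j k hjk
    induction k, hjk using Nat.le_induction with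
    | base =>
      have h1 := hSu (j + 1) j (by omega)
      have h2 : S (j + 1) ((v (j + 1)).1 x) =
          R j (S j ((v (j + 1)).1 x) - (v j).1.symm ((v (j + 1)).1 x)) := by
        rw [map_sub, hSs']
        have : R j ((v j).1.symm ((v (j + 1)).1 x)) = 0 := by
          simp [R, hPx]
        rw [this, sub_zero]
        rfl
      rw [h2]
      have h0 : (0 : ℝ) ≤ (1 / 2) ^ (j + 1) / 8 := by positivity
      calc _ ≤ _ := hRle j _
        _ ≤ (1 + (1 / 2) ^ (j + 1) / 8) * ((2 - (1 / 2) ^ j) * (j * (θ * (1 / 4) ^ (j + 1)))) := by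
          gcongr
        _ = ((1 + (1 / 2) ^ (j + 1) / 8) * (2 - (1 / 2) ^ j)) * (j * (θ * (1 / 4) ^ (j + 1))) := by
          ring
        _ ≤ (2 - (1 / 2) ^ (j + 1)) * (j * (θ * (1 / 4) ^ (j + 1))) := by
          exact mul_le_mul_of_nonneg_right (growth' j) (by positivity)
        _ ≤ _ := by
          have h6 : (0 : ℝ) ≤ 2 - (1 / 2) ^ (j + 1) := by
            have : ((1 : ℝ) / 2) ^ (j + 1) ≤ 1 := pow_le_one₀ (by norm_num) (by norm_num)
            linarith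
          gcongr
          linarith
    | succ k hk ih =>
      rw [hSs']
      have h0 : (0 : ℝ) ≤ (1 / 2) ^ (k + 1) / 8 := by positivity
      calc _ ≤ _ := hRle k _
        _ ≤ (1 + (1 / 2) ^ (k + 1) / 8) *
            ((2 - (1 / 2) ^ k) * ((j + 1) * (θ * (1 / 4) ^ (j + 1)))) :=
          mul_le_mul_of_nonneg_left ih (by linarith)
        _ = ((1 + (1 / 2) ^ (k + 1) / 8) * (2 - (1 / 2) ^ k)) *
            ((j + 1) * (θ * (1 / 4) ^ (j + 1))) := by ring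
        _ ≤ _ := mul_le_mul_of_nonneg_right (growth' k) (by positivity)
  have hSk' : ∀ j k, j + 1 ≤ k → ‖S k ((v (j + 1)).1 x)‖ ≤ 2 * θ * (1 / 2) ^ (j + 1) := by
    intro j k hjk
    refine (hSk j k hjk).trans ?_
    have h1 : (2 - (1 / 2 : ℝ) ^ k) ≤ 2 := by
      have : (0 : ℝ) < (1 / 2) ^ k := by positivity
      linarith
    have h2 : ((j : ℝ) + 1) ≤ 2 ^ (j + 1) := by
      have : j + 1 < 2 ^ (j + 1) := Nat.lt_two_pow_self
      exact_mod_cast this.le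
    calc (2 - (1 / 2 : ℝ) ^ k) * ((j + 1) * (θ * (1 / 4) ^ (j + 1)))
        ≤ 2 * (2 ^ (j + 1) * (θ * (1 / 4) ^ (j + 1))) := by gcongr
      _ = 2 * θ * ((2 : ℝ) * (1 / 4)) ^ (j + 1) := by rw [mul_pow]; ring
      _ = 2 * θ * (1 / 2) ^ (j + 1) := by norm_num
  -- the span of the `u j` is uniformly Hilbertian
  have hW : FiniteDimensional 𝕜 (Submodule.span 𝕜 (Set.range fun j : ℕ => (v (j + 1)).1 x)) := by
    refine hY.nh ((2 + 1) ^ 2 * (2 * 2) ^ 2 * C) _ fun F hF hFd => ?_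
    obtain ⟨k, hk⟩ := fd_le_span (fun j : ℕ => (v (j + 1)).1 x) F hF
    refine hilb_of_near (by linarith) hB hFR hE1 hfar (by norm_num)
      ((hSnear k).mono (c' := 2) (by
        have : (0 : ℝ) < (1 / 2) ^ k := by positivity
        linarith)) F (τ := 16 * B * θ) (by nlinarith) fun y hy => ?_
    obtain ⟨a, ha⟩ := (Submodule.mem_span_range_iff_exists_fun 𝕜).mp (hk hy)
    rw [← ha]
    have h1 := hlower k a
    calc ‖S k (∑ i : Fin k, a i • (v (i + 1)).1 x)‖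
        = ‖∑ i : Fin k, a i • S k ((v (i + 1)).1 x)‖ := by simp only [map_sum, map_smul]
      _ ≤ ∑ i : Fin k, (8 * B * ‖∑ j : Fin k, a j • (v (j + 1)).1 x‖) *
            (2 * θ * (1 / 2) ^ ((i : ℕ) + 1)) := by
          refine (norm_sum_le _ _).trans (Finset.sum_le_sum fun i _ => ?_)
          rw [norm_smul]
          exact mul_le_mul (h1 i) (hSk' i k (by omega)) (norm_nonneg _) (by positivity)
      _ = (16 * B * θ * ‖∑ j : Fin k, a j • (v (j + 1)).1 x‖) *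
            ∑ i : Fin k, (1 / 2 : ℝ) ^ ((i : ℕ) + 1) := by
          rw [Finset.mul_sum]
          exact Finset.sum_congr rfl fun i _ => by ring
      _ ≤ (16 * B * θ * ‖∑ j : Fin k, a j • (v (j + 1)).1 x‖) * 1 := by
          gcongr
          exact sum_half_le k
      _ = 16 * B * θ * ‖∑ j : Fin k, a j • (v (j + 1)).1 x‖ := mul_one _
  -- but it is infinite-dimensional
  set W := Submodule.span 𝕜 (Set.range fun j : ℕ => (v (j + 1)).1 x) with hWdef
  let k := Module.finrank 𝕜 W + 1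
  let w : Fin k → W := fun j => ⟨(v (j + 1)).1 x, Submodule.subset_span ⟨(j : ℕ), rfl⟩⟩
  have hli : LinearIndependent 𝕜 w := by
    rw [Fintype.linearIndependent_iff]
    intro g hg i
    have h1 := congrArg (Subtype.val) hg
    rw [AddSubmonoidClass.coe_finsetSum] at h1
    simp only [Submodule.coe_smul, Submodule.coe_zero, w] at h1
    have h2 := hlower k g i
    rw [h1, norm_zero, mul_zero] at h2
    exact norm_le_zero_iff.mp h2
  have := hli.fintype_card_le_finrank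
  simp [k] at this

end Pool.Agent.Helper130.Odell
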