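import Mathlib

set_option autoImplicit false

open Filter Topology

namespace Pool.Agent.Helper130.Odell

variable {𝕜 : Type*} [RCLike 𝕜]
variable {X : Type*} [NormedAddCommGroup X] [NormedSpace 𝕜 X]
variable {Y : Type*} [NormedAddCommGroup Y] [NormedSpace 𝕜 Y]
variable {Z : Type*} [NormedAddCommGroup Z] [NormedSpace 𝕜 Z]
variable {W : Type*} [NormedAddCommGroup W] [NormedSpace 𝕜 W]

/-- Finite rank operators. -/
def FR (G : Z →L[𝕜] W) : Prop := FiniteDimensional 𝕜 (LinearMap.range (G : Z →ₗ[𝕜] W))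

/-- `S` is in the closure, for the weak operator topology, of the isomorphisms `V` with
`‖V‖ ≤ c` and `‖V⁻¹‖ ≤ c`. -/
def Near (c : ℝ) (S : Y →L[𝕜] Z) : Prop :=
  ∀ (s : Finset (Y × (Z →L[𝕜] 𝕜))) (η : ℝ), 0 < η → ∃ V : Y ≃L[𝕜] Z,
    ‖(V : Y →L[𝕜] Z)‖ ≤ c ∧ ‖(V.symm : Z →L[𝕜] Y)‖ ≤ c ∧
      ∀ p ∈ s, ‖p.2 (V p.1) - p.2 (S p.1)‖ < η

theorem Near.of_equiv {c : ℝ} (V : Y ≃L[𝕜] Z) (h : ‖(V : Y →L[𝕜] Z)‖ ≤ c)
    (h' : ‖(V.symm : Z →L[𝕜] Y)‖ ≤ c) : Near c (V : Y →L[𝕜] Z) := by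
  intro s η hη
  exact ⟨V, h, h', fun p _ => by simpa using hη⟩

theorem Near.mono {c c' : ℝ} {S : Y →L[𝕜] Z} (h : Near c S) (hc : c ≤ c') : Near c' S := by
  intro s η hη
  obtain ⟨V, h1, h2, h3⟩ := h s η hη
  exact ⟨V, h1.trans hc, h2.trans hc, h3⟩

theorem Near.nonneg {c : ℝ} {S : Y →L[𝕜] Z} (h : Near c S) : 0 ≤ c := by
  obtain ⟨V, h1, _, _⟩ := h ∅ 1 one_pos
  exact (norm_nonneg _).trans h1

theorem Near.comp {c c' : ℝ} {S : Y →L[𝕜] Z} {S' : X →L[𝕜] Y} (h : Near c S) (h' : Near c' S') :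
    Near (c * c') (S.comp S') := by
  classical
  intro s η hη
  obtain ⟨V', a1, a2, a3⟩ := h' (s.image fun p => (p.1, p.2.comp S)) (η / 2) (by positivity)
  obtain ⟨V, b1, b2, b3⟩ := h (s.image fun p => (V' p.1, p.2)) (η / 2) (by positivity)
  refine ⟨V'.trans V, ?_, ?_, ?_⟩
  · have : ((V'.trans V : X ≃L[𝕜] Z) : X →L[𝕜] Z) = (V : Y →L[𝕜] Z).comp (V' : X →L[𝕜] Y) := rfl
    rw [this]
    exact (ContinuousLinearMap.opNorm_comp_le _ _).trans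
      (mul_le_mul b1 a1 (norm_nonneg _) h.nonneg)
  · have : ((V'.trans V).symm : Z →L[𝕜] X) = (V'.symm : Y →L[𝕜] X).comp (V.symm : Z →L[𝕜] Y) := rfl
    rw [this, mul_comm]
    exact (ContinuousLinearMap.opNorm_comp_le _ _).trans
      (mul_le_mul a2 b2 (norm_nonneg _) h'.nonneg)
  · intro p hp
    have e1 := a3 (p.1, p.2.comp S) (Finset.mem_image_of_mem _ hp)
    have e2 := b3 (V' p.1, p.2) (Finset.mem_image_of_mem (fun p => (V' p.1, p.2)) hp)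
    simp only [ContinuousLinearMap.comp_apply] at e1 e2 ⊢
    have : p.2 ((V'.trans V) p.1) - p.2 (S (S' p.1)) =
        (p.2 (V (V' p.1)) - p.2 (S (V' p.1))) + (p.2 (S (V' p.1)) - p.2 (S (S' p.1))) := by
      simp
    rw [this]
    calc _ ≤ _ := norm_add_le _ _
      _ < η / 2 + η / 2 := add_lt_add e2 e1
      _ = η := by ring

theorem Near.apply_le {c : ℝ} {S : Y →L[𝕜] Z} (h : Near c S) (y : Y) : ‖S y‖ ≤ c * ‖y‖ := by
  classical
  obtain ⟨φ, hφ, hφ'⟩ := exists_dual_vector'' 𝕜 (S y)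
  refine le_of_forall_pos_le_add fun η hη => ?_
  obtain ⟨V, h1, _, h3⟩ := h {(y, φ)} η hη
  have e := h3 (y, φ) (Finset.mem_singleton_self _)
  simp only at e
  have e1 : ‖S y‖ = ‖φ (S y)‖ := by rw [hφ']; simp
  have e2 : ‖φ (V y)‖ ≤ c * ‖y‖ := by
    calc ‖φ (V y)‖ ≤ ‖φ‖ * ‖V y‖ := φ.le_opNorm _
      _ ≤ 1 * ‖V y‖ := by gcongr
      _ ≤ c * ‖y‖ := by
        rw [one_mul]
        exact ((V : Y →L[𝕜] Z).le_opNorm y).trans (mul_le_mul_of_nonneg_right h1 (norm_nonneg _))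
  rw [e1]
  calc ‖φ (S y)‖ = ‖φ (V y) - (φ (V y) - φ (S y))‖ := by congr 1; ring
    _ ≤ ‖φ (V y)‖ + ‖φ (V y) - φ (S y)‖ := norm_sub_le _ _
    _ ≤ c * ‖y‖ + η := add_le_add e2 e.le

theorem Near.norm_le {c : ℝ} {S : Y →L[𝕜] Z} (h : Near c S) : ‖S‖ ≤ c :=
  S.opNorm_le_bound h.nonneg h.apply_le

theorem Near.of_tendsto {ι : Type*} {l : Filter ι} [NeBot l] {c : ℝ} {S : Y →L[𝕜] Z}
    {Si : ι → Y →L[𝕜] Z}
    (h : ∀ (y : Y) (φ : Z →L[𝕜] 𝕜), Tendsto (fun i => φ (Si i y)) l (𝓝 (φ (S y))))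
    (hn : ∀ᶠ i in l, Near c (Si i)) : Near c S := by
  intro s η hη
  have h1 : ∀ᶠ i in l, ∀ p ∈ s, ‖p.2 (Si i p.1) - p.2 (S p.1)‖ < η / 2 := by
    rw [Filter.eventually_all_finset]
    intro p _
    have := (h p.1 p.2).sub_const (p.2 (S p.1))
    rw [sub_self] at this
    have h2 := this.norm
    rw [norm_zero] at h2
    exact h2.eventually (gt_mem_nhds (by positivity))
  obtain ⟨i, hi, hni⟩ := (h1.and hn).exists
  obtain ⟨V, a1, a2, a3⟩ := hni s (η / 2) (by positivity)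
  refine ⟨V, a1, a2, fun p hp => ?_⟩
  have : p.2 (V p.1) - p.2 (S p.1) =
      (p.2 (V p.1) - p.2 (Si i p.1)) + (p.2 (Si i p.1) - p.2 (S p.1)) := by ring
  rw [this]
  calc _ ≤ _ := norm_add_le _ _
    _ < η / 2 + η / 2 := add_lt_add (a3 p hp) (hi p hp)
    _ = η := by ring

theorem finite_rank_bound (G : Z →L[𝕜] W) (hG : FR G) :
    ∃ (n : ℕ) (φ : Fin n → Z →L[𝕜] 𝕜), ∀ z, ‖G z‖ ≤ ∑ i, ‖φ i z‖ := by
  let R := LinearMap.range (G : Z →ₗ[𝕜] W)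
  have : FiniteDimensional 𝕜 R := hG
  let b := Module.finBasis 𝕜 R
  let Gr : Z →L[𝕜] R := G.codRestrict R (fun z => LinearMap.mem_range_self _ z)
  refine ⟨_, fun i => ((‖(b i : W)‖ : ℝ) : 𝕜) •
    ((LinearMap.toContinuousLinearMap (b.coord i)).comp Gr), fun z => ?_⟩
  have h1 : G z = ∑ i, b.repr (Gr z) i • (b i : W) := by
    have := congrArg (Subtype.val) (b.sum_repr (Gr z))
    rw [AddSubmonoidClass.coe_finsetSum] at this
    simp only [Submodule.coe_smul] at this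
    rw [this]
    rfl
  rw [h1]
  refine (norm_sum_le _ _).trans (le_of_eq (Finset.sum_congr rfl fun i _ => ?_))
  rw [norm_smul]
  simp [norm_smul, mul_comm]

theorem Near.exists_fin {c : ℝ} {S : Y →L[𝕜] Z} (h : Near c S) {ι : Type*} [Fintype ι]
    (y : ι → Y) (G : ι → Z →L[𝕜] W) (hG : ∀ i, FR (G i))
    {η : ℝ} (hη : 0 < η) : ∃ V : Y ≃L[𝕜] Z,
      ‖(V : Y →L[𝕜] Z)‖ ≤ c ∧ ‖(V.symm : Z →L[𝕜] Y)‖ ≤ c ∧
        ∀ i, ‖G i (V (y i) - S (y i))‖ ≤ η := by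
  classical
  choose n φ hφ using fun i => finite_rank_bound (G i) (hG i)
  obtain ⟨M, hM⟩ : ∃ M : ℕ, ∀ i, n i ≤ M :=
    ⟨∑ i, n i, fun i => Finset.single_le_sum (fun _ _ => Nat.zero_le _) (Finset.mem_univ i)⟩
  obtain ⟨V, a1, a2, a3⟩ := h (Finset.univ.biUnion fun i =>
    Finset.univ.image fun j : Fin (n i) => (y i, φ i j)) (η / (M + 1)) (by positivity)
  refine ⟨V, a1, a2, fun i => ?_⟩
  refine (hφ i _).trans ?_
  have h1 : ∀ j : Fin (n i), ‖φ i j (V (y i) - S (y i))‖ ≤ η / (M + 1) := by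
    intro j
    have := a3 (y i, φ i j) (Finset.mem_biUnion.mpr ⟨i, Finset.mem_univ _,
      Finset.mem_image.mpr ⟨j, Finset.mem_univ _, rfl⟩⟩)
    rw [map_sub]
    exact this.le
  calc ∑ j, ‖φ i j (V (y i) - S (y i))‖ ≤ ∑ _j : Fin (n i), η / (M + 1) :=
        Finset.sum_le_sum fun j _ => h1 j
    _ = n i * (η / (M + 1)) := by simp
    _ ≤ (M : ℝ) * (η / (M + 1)) := by
        have : (n i : ℝ) ≤ M := by exact_mod_cast hM i
        gcongr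
    _ ≤ η := by
        rw [mul_div_assoc', div_le_iff₀ (by positivity)]
        nlinarith

theorem Near.exists_sub {c : ℝ} {S : Y →L[𝕜] Z} (h : Near c S) (F : Submodule 𝕜 Y)
    [FiniteDimensional 𝕜 F] (G : Z →L[𝕜] W) (hG : FR G)
    {η : ℝ} (hη : 0 < η) : ∃ V : Y ≃L[𝕜] Z,
      ‖(V : Y →L[𝕜] Z)‖ ≤ c ∧ ‖(V.symm : Z →L[𝕜] Y)‖ ≤ c ∧
        ∀ y ∈ F, ‖G (V y - S y)‖ ≤ η * ‖y‖ := by
  let b := Module.finBasis 𝕜 F
  obtain ⟨M, hM0, hM⟩ : ∃ M : ℝ, 0 < M ∧ ∀ y : F, ∑ i, ‖b.repr y i‖ ≤ M * ‖y‖ := by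
    refine ⟨∑ i, ‖LinearMap.toContinuousLinearMap (b.coord i)‖ + 1, by positivity, fun y => ?_⟩
    calc ∑ i, ‖b.repr y i‖ ≤ ∑ i, ‖LinearMap.toContinuousLinearMap (b.coord i)‖ * ‖y‖ :=
          Finset.sum_le_sum fun i _ =>
            (LinearMap.toContinuousLinearMap (b.coord i)).le_opNorm y
      _ = (∑ i, ‖LinearMap.toContinuousLinearMap (b.coord i)‖) * ‖y‖ := by rw [Finset.sum_mul]
      _ ≤ _ := by gcongr; linarith
  obtain ⟨V, a1, a2, a3⟩ := h.exists_fin (fun i => (b i : Y)) (fun _ => G) (fun _ => hG)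
    (η := η / M) (by positivity)
  refine ⟨V, a1, a2, fun y hy => ?_⟩
  have h1 : y = ∑ i, b.repr ⟨y, hy⟩ i • (b i : Y) := by
    have := congrArg (Subtype.val) (b.sum_repr ⟨y, hy⟩)
    rw [AddSubmonoidClass.coe_finsetSum] at this
    simp only [Submodule.coe_smul] at this
    exact this.symm
  have h2 : G (V y - S y) = ∑ i, b.repr ⟨y, hy⟩ i • G (V (b i : Y) - S (b i : Y)) := by
    conv_lhs => rw [h1]
    simp only [map_sum, map_smul, ← Finset.sum_sub_distrib, ← smul_sub]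
  rw [h2]
  calc ‖∑ i, b.repr ⟨y, hy⟩ i • G (V (b i : Y) - S (b i : Y))‖
      ≤ ∑ i, ‖b.repr ⟨y, hy⟩ i‖ * (η / M) := by
        refine (norm_sum_le _ _).trans (Finset.sum_le_sum fun i _ => ?_)
        rw [norm_smul]
        exact mul_le_mul_of_nonneg_left (a3 i) (norm_nonneg _)
    _ = (∑ i, ‖b.repr ⟨y, hy⟩ i‖) * (η / M) := by rw [Finset.sum_mul]
    _ ≤ (M * ‖(⟨y, hy⟩ : F)‖) * (η / M) := by gcongr; exact hM _
    _ = η * ‖y‖ := by
        rw [Submodule.coe_norm]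
        field_simp

end Pool.Agent.Helper130.Odell
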