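import Pool.Agent.Helper130.Odell.Space

set_option autoImplicit false

open Filter Topology

namespace Pool.Agent.Helper130.Odell

variable {𝕜 : Type*} [RCLike 𝕜]

theorem isX_of_le {x y : ℕ → 𝕜} (hx : IsX x) (h : ∀ n, ‖y n‖ ≤ ‖x n‖) : IsX y := by
  obtain ⟨C, hC⟩ := hx
  refine ⟨C, fun w hw => (pair_mono hw.nonneg fun n => ?_).trans (hC w hw)⟩
  unfold sq
  exact pow_le_pow_left₀ (norm_nonneg _) (h n) 2

theorem TX.norm_mono {x y : TX 𝕜} (h : ∀ n, ‖y.val n‖ ≤ ‖x.val n‖) : ‖y‖ ≤ ‖x‖ := by
  refine TX.norm_le fun w hw => ?_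
  refine le_trans ?_ (x.vec_le hw)
  rw [norm_vec hw.nonneg, norm_vec hw.nonneg]
  refine Real.sqrt_le_sqrt (pair_mono hw.nonneg fun n => ?_)
  unfold sq
  exact pow_le_pow_left₀ (norm_nonneg _) (h n) 2

/-- Restriction of the coordinates to a set. -/
noncomputable def TX.proj (p : ℕ → Prop) [DecidablePred p] : TX 𝕜 →L[𝕜] TX 𝕜 :=
  LinearMap.mkContinuous
    { toFun := fun x => TX.mk (fun n => if p n then x.val n else 0)
        (isX_of_le x.isX fun n => by split_ifs <;> simp)
      map_add' := fun x y => TX.ext fun n => by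
        simp only [TX.val_mk, map_add, Pi.add_apply]
        split_ifs <;> simp
      map_smul' := fun c x => TX.ext fun n => by
        simp only [TX.val_mk, map_smul, Pi.smul_apply, RingHom.id_apply]
        split_ifs <;> simp }
    1 (fun x => by
      rw [one_mul]
      refine TX.norm_mono fun n => ?_
      simp only [LinearMap.coe_mk, AddHom.coe_mk, TX.val_mk]
      split_ifs <;> simp)

theorem TX.proj_val (p : ℕ → Prop) [DecidablePred p] (x : TX 𝕜) (n : ℕ) :
    (TX.proj p x).val n = if p n then x.val n else 0 := rfl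

theorem TX.proj_le (p : ℕ → Prop) [DecidablePred p] (x : TX 𝕜) : ‖TX.proj p x‖ ≤ ‖x‖ :=
  TX.norm_mono fun n => by
    rw [TX.proj_val]
    split_ifs <;> simp

theorem TX.norm_proj_le (p : ℕ → Prop) [DecidablePred p] : ‖(TX.proj p : TX 𝕜 →L[𝕜] TX 𝕜)‖ ≤ 1 :=
  ContinuousLinearMap.opNorm_le_bound _ zero_le_one fun x => by
    rw [one_mul]; exact TX.proj_le p x

/-- The coordinate functionals. -/
noncomputable def TX.coord (n : ℕ) : TX 𝕜 →L[𝕜] 𝕜 :=
  LinearMap.mkContinuous
    { toFun := fun x => x.val n
      map_add' := fun x y => by simp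
      map_smul' := fun c x => by simp }
    1 (fun x => by
      rw [one_mul]
      exact x.coord_le n)

@[simp] theorem TX.coord_apply (n : ℕ) (x : TX 𝕜) : TX.coord n x = x.val n := rfl

theorem pair_of_support {w : ℕ →₀ ℝ} {β γ : ℕ → ℝ} (h : ∀ n ∈ w.support, β n = γ n) :
    pair w β = pair w γ := by
  unfold pair Finsupp.sum
  exact Finset.sum_congr rfl fun n hn => by simp only [h n hn]

theorem pair_filter_eq (w : ℕ →₀ ℝ) (p : ℕ → Prop) [DecidablePred p] (β : ℕ → ℝ) :
    pair (w.filter p) β = pair w (fun n => if p n then β n else 0) := by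
  have h1 : (w.filter p).support ⊆ w.support := by
    rw [Finsupp.support_filter]; exact Finset.filter_subset _ _
  rw [pair_eq_sum h1, pair_eq_sum (Finset.Subset.refl w.support)]
  refine Finset.sum_congr rfl fun n _ => ?_
  rw [Finsupp.filter_apply]
  split_ifs <;> simp

theorem sq_proj (p : ℕ → Prop) [DecidablePred p] (x : TX 𝕜) :
    sq (TX.proj p x).val = fun n => if p n then sq x.val n else 0 := by
  funext n
  unfold sq
  rw [TX.proj_val]
  split_ifs <;> simp

/-- The canonical basis vectors. -/
noncomputable def TX.e (n : ℕ) : TX 𝕜 :=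
  TX.mk (Pi.single n 1) (by
    refine ⟨1, fun w hw => ?_⟩
    have hle : ∀ {w : ℕ →₀ ℝ}, KK w → w n ≤ 1 := by
      intro w hw
      induction hw with
      | single m =>
        rw [Finsupp.single_apply]
        split_ifs <;> norm_num
      | node k w h hd hs ih =>
        rw [Finsupp.smul_apply, Finsupp.finsetSum_apply, smul_eq_mul]
        by_cases hex : ∃ i, w i n ≠ 0
        · obtain ⟨i, hi⟩ := hex
          rw [Finset.sum_eq_single i]
          · have := ih i
            have h0 := (h i).nonneg n
            linarith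
          · intro j _ hj
            by_contra hjn
            exact Finset.disjoint_left.mp (hd j i hj) (Finsupp.mem_support_iff.mpr hjn)
              (Finsupp.mem_support_iff.mpr hi)
          · simp
        · push Not at hex
          rw [Finset.sum_eq_zero fun i _ => hex i]
          norm_num
    have : pair w (sq (Pi.single n (1 : 𝕜))) = w n := by
      unfold pair Finsupp.sum sq
      rw [Finset.sum_eq_single n]
      · simp
      · intro m _ hm
        simp [Pi.single_eq_of_ne hm]
      · intro hn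
        simp [Finsupp.notMem_support_iff.mp hn]
    rw [this]
    exact hle hw)

theorem TX.e_val (n : ℕ) : (TX.e n : TX 𝕜).val = Pi.single n 1 := rfl

/-- Upper estimate for two disjoint vectors. -/
theorem TX.upper {x y : TX 𝕜} (h : ∀ n, x.val n = 0 ∨ y.val n = 0) :
    ‖x + y‖ ^ 2 ≤ ‖x‖ ^ 2 + ‖y‖ ^ 2 := by
  refine TX.norm_sq_le fun w hw => ?_
  have : sq (x + y).val = fun n => sq x.val n + sq y.val n := by
    funext n
    unfold sq
    rw [map_add, Pi.add_apply]
    rcases h n with h | h <;> simp [h]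
  rw [this, pair_add_right]
  exact add_le_add (x.pair_le hw) (y.pair_le hw)

/-- Lower estimate for disjoint far away vectors. -/
theorem TX.lower {ι : Type*} [Fintype ι] [DecidableEq ι] (m : ℕ) (hm : Fintype.card ι ≤ m)
    (x : TX 𝕜) (c : ℕ → ι) (hx : ∀ n, n < m → x.val n = 0) :
    ∑ i, ‖TX.proj (fun n => c n = i) x‖ ^ 2 ≤ 2 * ‖x‖ ^ 2 := by
  classical
  refine le_of_forall_pos_lt_add fun ε hε => ?_
  have h1 : ∀ i, ∃ w, KK w ∧ ‖TX.proj (fun n => c n = i) x‖ ^ 2 - ε / (Fintype.card ι + 1) <
      pair w (sq (TX.proj (fun n => c n = i) x).val) := fun i =>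
    TX.exists_pair (by
      have : 0 < ε / (Fintype.card ι + 1) := by positivity
      linarith)
  choose w hw hwlt using h1
  have h2 : KK ((1 / 2 : ℝ) • ∑ i, ((w i).filter (fun n => c n = i ∧ m ≤ n))) := by
    refine KK.sum m hm _ (fun i => (hw i).filter _) (fun i j hij => ?_) (fun i n hn => ?_)
    · rw [Finset.disjoint_left]
      intro n hn hn'
      rw [Finsupp.support_filter, Finset.mem_filter] at hn hn'
      exact hij (hn.2.1.symm.trans hn'.2.1)
    · rw [Finsupp.support_filter, Finset.mem_filter] at hn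
      exact hn.2.2
  have h3 := x.pair_le h2
  rw [pair_smul_left, pair_sum_left] at h3
  have h4 : ∀ i, pair ((w i).filter (fun n => c n = i ∧ m ≤ n)) (sq x.val) =
      pair (w i) (sq (TX.proj (fun n => c n = i) x).val) := by
    intro i
    rw [pair_filter_eq, sq_proj]
    refine pair_of_support fun n _ => ?_
    by_cases hcn : c n = i
    · by_cases hmn : m ≤ n
      · simp [hcn, hmn]
      · have : x.val n = 0 := hx n (not_le.mp hmn)
        simp [hcn, hmn, sq, this]
    · simp [hcn]
  rw [Finset.sum_congr rfl fun i _ => h4 i] at h3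
  have h5 : ∑ i, (‖TX.proj (fun n => c n = i) x‖ ^ 2 - ε / (Fintype.card ι + 1)) ≤
      ∑ i, pair (w i) (sq (TX.proj (fun n => c n = i) x).val) :=
    Finset.sum_le_sum fun i _ => (hwlt i).le
  rw [Finset.sum_sub_distrib, Finset.sum_const, Finset.card_univ, nsmul_eq_mul] at h5
  have h6 : (Fintype.card ι : ℝ) * (ε / (Fintype.card ι + 1)) < ε := by
    rw [mul_div_assoc', div_lt_iff₀ (by positivity)]
    nlinarith
  linarith

end Pool.Agent.Helper130.Odell
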