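import Pool.Agent.Helper130.Odell.KK

set_option autoImplicit false

open Filter Topology

namespace Pool.Agent.Helper130.Odell

variable {𝕜 : Type*} [RCLike 𝕜]

/-- The sequence of squares of moduli. -/
noncomputable def sq (x : ℕ → 𝕜) : ℕ → ℝ := fun n => ‖x n‖ ^ 2

/-- An auxiliary Euclidean vector realising the weighted `ℓ²` seminorm of `x`. -/
noncomputable def vec (w : ℕ →₀ ℝ) : (ℕ → 𝕜) →ₗ[𝕜] EuclideanSpace 𝕜 w.support where
  toFun x := WithLp.toLp 2 fun n => ((Real.sqrt (w n) : ℝ) : 𝕜) * x n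
  map_add' x y := by
    ext n
    simp [mul_add]
  map_smul' c x := by
    ext n
    simp [mul_left_comm]

theorem pair_nonneg_of {w : ℕ →₀ ℝ} (hw : ∀ n, 0 ≤ w n) {β : ℕ → ℝ} (hβ : ∀ n, 0 ≤ β n) :
    0 ≤ pair w β := by
  unfold pair Finsupp.sum
  exact Finset.sum_nonneg fun n _ => mul_nonneg (hw n) (hβ n)

theorem pair_mono {w : ℕ →₀ ℝ} (hw : ∀ n, 0 ≤ w n) {β γ : ℕ → ℝ} (h : ∀ n, β n ≤ γ n) :
    pair w β ≤ pair w γ := by
  unfold pair Finsupp.sum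
  exact Finset.sum_le_sum fun n _ => mul_le_mul_of_nonneg_left (h n) (hw n)

theorem pair_sq_nonneg {w : ℕ →₀ ℝ} (hw : ∀ n, 0 ≤ w n) (x : ℕ → 𝕜) : 0 ≤ pair w (sq x) :=
  pair_nonneg_of hw fun _ => by unfold sq; positivity

theorem norm_vec_sq {w : ℕ →₀ ℝ} (hw : ∀ n, 0 ≤ w n) (x : ℕ → 𝕜) :
    ‖vec w x‖ ^ 2 = pair w (sq x) := by
  rw [EuclideanSpace.norm_sq_eq]
  unfold pair Finsupp.sum sq vec
  simp only [LinearMap.coe_mk, AddHom.coe_mk]
  rw [← Finset.sum_coe_sort w.support]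
  refine Finset.sum_congr rfl fun n _ => ?_
  rw [norm_mul, mul_pow, RCLike.norm_ofReal, sq_abs, Real.sq_sqrt (hw _)]

theorem norm_vec {w : ℕ →₀ ℝ} (hw : ∀ n, 0 ≤ w n) (x : ℕ → 𝕜) :
    ‖vec w x‖ = Real.sqrt (pair w (sq x)) := by
  rw [← norm_vec_sq hw, Real.sqrt_sq (norm_nonneg _)]

/-- Membership in the space. -/
def IsX (x : ℕ → 𝕜) : Prop := ∃ C : ℝ, ∀ w, KK w → pair w (sq x) ≤ C

variable (𝕜) in
/-- The space as a submodule of all sequences. -/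
def XS : Submodule 𝕜 (ℕ → 𝕜) where
  carrier := {x | IsX x}
  zero_mem' := ⟨0, fun w _ => by simp [sq, pair]⟩
  add_mem' := by
    rintro x y ⟨C, hC⟩ ⟨D, hD⟩
    refine ⟨(Real.sqrt C + Real.sqrt D) ^ 2, fun w hw => ?_⟩
    rw [← norm_vec_sq hw.nonneg, map_add]
    have h1 : ‖vec w x‖ ≤ Real.sqrt C := by
      rw [norm_vec hw.nonneg]
      exact Real.sqrt_le_sqrt (hC w hw)
    have h2 : ‖vec w y‖ ≤ Real.sqrt D := by
      rw [norm_vec hw.nonneg]
      exact Real.sqrt_le_sqrt (hD w hw)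
    have := norm_add_le (vec w x) (vec w y)
    gcongr
    linarith
  smul_mem' := by
    rintro c x ⟨C, hC⟩
    refine ⟨‖c‖ ^ 2 * C, fun w hw => ?_⟩
    rw [← norm_vec_sq hw.nonneg, map_smul, norm_smul, mul_pow, norm_vec_sq hw.nonneg]
    exact mul_le_mul_of_nonneg_left (hC w hw) (by positivity)

/-- The norm. -/
noncomputable def nrm (x : ℕ → 𝕜) : ℝ := ⨆ w : {w : ℕ →₀ ℝ // KK w}, ‖vec w.1 x‖

instance : Nonempty {w : ℕ →₀ ℝ // KK w} := ⟨⟨0, KK.zero⟩⟩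

theorem nrm_bdd {x : ℕ → 𝕜} (hx : IsX x) :
    BddAbove (Set.range fun w : {w : ℕ →₀ ℝ // KK w} => ‖vec w.1 x‖) := by
  obtain ⟨C, hC⟩ := hx
  refine ⟨Real.sqrt C, ?_⟩
  rintro _ ⟨w, rfl⟩
  simp only
  rw [norm_vec w.2.nonneg]
  exact Real.sqrt_le_sqrt (hC _ w.2)

theorem vec_le_nrm {x : ℕ → 𝕜} (hx : IsX x) {w : ℕ →₀ ℝ} (hw : KK w) : ‖vec w x‖ ≤ nrm x :=
  le_ciSup (nrm_bdd hx) (⟨w, hw⟩ : {w : ℕ →₀ ℝ // KK w})

theorem nrm_le {x : ℕ → 𝕜} {c : ℝ} (h : ∀ w, KK w → ‖vec w x‖ ≤ c) : nrm x ≤ c :=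
  ciSup_le fun w => h w.1 w.2

theorem nrm_nonneg {x : ℕ → 𝕜} (hx : IsX x) : 0 ≤ nrm x :=
  (norm_nonneg _).trans (vec_le_nrm hx KK.zero)

theorem norm_vec_single (n : ℕ) (x : ℕ → 𝕜) : ‖vec (Finsupp.single n 1) x‖ = ‖x n‖ := by
  rw [norm_vec (KK.single n).nonneg]
  have : pair (Finsupp.single n 1) (sq x) = ‖x n‖ ^ 2 := by
    unfold pair
    rw [Finsupp.sum_single_index (by simp)]
    simp [sq]
  rw [this, Real.sqrt_sq (norm_nonneg _)]

theorem coord_le_nrm {x : ℕ → 𝕜} (hx : IsX x) (n : ℕ) : ‖x n‖ ≤ nrm x := by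
  rw [← norm_vec_single]
  exact vec_le_nrm hx (KK.single n)

/-- The modified `2`-convexified Tsirelson space. -/
def TX (𝕜 : Type*) [RCLike 𝕜] : Type _ := XS 𝕜

noncomputable instance : AddCommGroup (TX 𝕜) := inferInstanceAs (AddCommGroup (XS 𝕜))
noncomputable instance : Module 𝕜 (TX 𝕜) := inferInstanceAs (Module 𝕜 (XS 𝕜))

/-- The inclusion in the space of all sequences. -/
def TX.val : TX 𝕜 →ₗ[𝕜] (ℕ → 𝕜) := (XS 𝕜).subtype

theorem TX.isX (x : TX 𝕜) : IsX x.val := x.2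

theorem TX.val_injective : Function.Injective (TX.val : TX 𝕜 →ₗ[𝕜] (ℕ → 𝕜)) :=
  Subtype.val_injective

/-- Constructor. -/
def TX.mk (x : ℕ → 𝕜) (hx : IsX x) : TX 𝕜 := ⟨x, hx⟩

@[simp] theorem TX.val_mk (x : ℕ → 𝕜) (hx : IsX x) : (TX.mk x hx).val = x := rfl

theorem TX.ext {x y : TX 𝕜} (h : ∀ n, x.val n = y.val n) : x = y :=
  TX.val_injective (funext h)

noncomputable instance : Norm (TX 𝕜) := ⟨fun x => nrm x.val⟩

theorem TX.norm_def (x : TX 𝕜) : ‖x‖ = nrm x.val := rfl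

theorem TX.core : NormedSpace.Core 𝕜 (TX 𝕜) where
  norm_nonneg x := nrm_nonneg x.isX
  norm_smul c x := by
    rw [TX.norm_def, TX.norm_def, map_smul]
    unfold nrm
    rw [Real.mul_iSup_of_nonneg (norm_nonneg _)]
    simp only [map_smul, norm_smul]
  norm_triangle x y := by
    rw [TX.norm_def, map_add]
    refine nrm_le fun w hw => ?_
    rw [map_add]
    exact (norm_add_le _ _).trans (add_le_add (vec_le_nrm x.isX hw) (vec_le_nrm y.isX hw))
  norm_eq_zero_iff x := by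
    constructor
    · intro h
      refine TX.ext fun n => ?_
      have := coord_le_nrm x.isX n
      rw [← TX.norm_def, h] at this
      rw [map_zero, Pi.zero_apply]
      exact norm_le_zero_iff.mp this
    · rintro rfl
      rw [TX.norm_def, map_zero]
      unfold nrm
      simp

noncomputable instance : NormedAddCommGroup (TX 𝕜) := NormedAddCommGroup.ofCore TX.core
noncomputable instance : NormedSpace 𝕜 (TX 𝕜) := NormedSpace.ofCore TX.core

theorem TX.vec_le (x : TX 𝕜) {w : ℕ →₀ ℝ} (hw : KK w) : ‖vec w x.val‖ ≤ ‖x‖ :=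
  vec_le_nrm x.isX hw

theorem TX.pair_le (x : TX 𝕜) {w : ℕ →₀ ℝ} (hw : KK w) : pair w (sq x.val) ≤ ‖x‖ ^ 2 := by
  rw [← norm_vec_sq hw.nonneg]
  exact pow_le_pow_left₀ (norm_nonneg _) (x.vec_le hw) 2

theorem TX.norm_le {x : TX 𝕜} {c : ℝ} (h : ∀ w, KK w → ‖vec w x.val‖ ≤ c) : ‖x‖ ≤ c := nrm_le h

theorem TX.norm_sq_le {x : TX 𝕜} {c : ℝ} (h : ∀ w, KK w → pair w (sq x.val) ≤ c) :
    ‖x‖ ^ 2 ≤ c := by
  have hc : 0 ≤ c := (pair_sq_nonneg KK.zero.nonneg x.val).trans (h 0 KK.zero)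
  have : ‖x‖ ≤ Real.sqrt c := TX.norm_le fun w hw => by
    rw [norm_vec hw.nonneg]
    exact Real.sqrt_le_sqrt (h w hw)
  calc ‖x‖ ^ 2 ≤ Real.sqrt c ^ 2 := by gcongr
    _ = c := Real.sq_sqrt hc

theorem TX.coord_le (x : TX 𝕜) (n : ℕ) : ‖x.val n‖ ≤ ‖x‖ := coord_le_nrm x.isX n

theorem TX.exists_pair {x : TX 𝕜} {c : ℝ} (h : c < ‖x‖ ^ 2) : ∃ w, KK w ∧ c < pair w (sq x.val) := by
  by_contra hcon
  push Not at hcon
  exact absurd (TX.norm_sq_le hcon) (not_le.mpr h)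

instance : CompleteSpace (TX 𝕜) := by
  refine Metric.complete_of_cauchySeq_tendsto fun u hu => ?_
  -- coordinates converge
  have hc : ∀ n, ∃ a : 𝕜, Tendsto (fun i => (u i).val n) atTop (𝓝 a) := by
    intro n
    refine cauchySeq_tendsto_of_complete ?_
    rw [Metric.cauchySeq_iff'] at hu ⊢
    intro ε hε
    obtain ⟨N, hN⟩ := hu ε hε
    refine ⟨N, fun i hi => lt_of_le_of_lt ?_ (hN i hi)⟩
    rw [dist_eq_norm, dist_eq_norm]
    have := (u i - u N).coord_le n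
    rwa [map_sub, Pi.sub_apply] at this
  choose a ha using hc
  have hvec : ∀ w : ℕ →₀ ℝ, ∀ j, Tendsto (fun i => ‖vec w ((u i).val - (u j).val)‖) atTop
      (𝓝 ‖vec w (a - (u j).val)‖) := by
    intro w j
    refine Tendsto.norm ?_
    have hcont : Continuous fun z : ℕ → 𝕜 => vec w z := by
      unfold vec
      simp only [LinearMap.coe_mk, AddHom.coe_mk]
      fun_prop
    exact (hcont.tendsto _).comp ((tendsto_pi_nhds.mpr ha).sub_const _)
  have hkey : ∀ ε > 0, ∃ N, ∀ j ≥ N, ∀ w, KK w → ‖vec w (a - (u j).val)‖ ≤ ε := by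
    intro ε hε
    rw [Metric.cauchySeq_iff] at hu
    obtain ⟨N, hN⟩ := hu ε hε
    refine ⟨N, fun j hj w hw => le_of_tendsto (hvec w j) ?_⟩
    filter_upwards [eventually_ge_atTop N] with i hi
    have := (u i - u j).vec_le hw
    rw [map_sub] at this
    refine this.trans ?_
    rw [← dist_eq_norm]
    exact (hN i hi j hj).le
  have haX : IsX a := by
    obtain ⟨N, hN⟩ := hkey 1 one_pos
    have h1 : IsX (a - (u N).val) := ⟨1, fun w hw => by
      rw [← norm_vec_sq hw.nonneg]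
      have := hN N le_rfl w hw
      have h0 := norm_nonneg (vec w (a - (u N).val))
      nlinarith⟩
    have h2 := (XS 𝕜).add_mem (show (a - (u N).val) ∈ XS 𝕜 from h1)
      (show (u N).val ∈ XS 𝕜 from (u N).isX)
    rw [sub_add_cancel] at h2
    exact h2
  refine ⟨TX.mk a haX, ?_⟩
  rw [Metric.tendsto_atTop]
  intro ε hε
  obtain ⟨N, hN⟩ := hkey (ε / 2) (by positivity)
  refine ⟨N, fun j hj => ?_⟩
  rw [dist_comm, dist_eq_norm]
  refine lt_of_le_of_lt (TX.norm_le fun w hw => ?_) (half_lt_self hε)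
  rw [map_sub, TX.val_mk]
  exact hN j hj w hw

end Pool.Agent.Helper130.Odell
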