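import Pool.Agent.Helper130.Odell.Near

set_option autoImplicit false

open Filter Topology

namespace Pool.Agent.Helper130.Odell

variable {𝕜 : Type*} [RCLike 𝕜]
variable {X : Type*} [NormedAddCommGroup X] [NormedSpace 𝕜 X]
variable {Y : Type*} [NormedAddCommGroup Y] [NormedSpace 𝕜 Y]
variable {Z : Type*} [NormedAddCommGroup Z] [NormedSpace 𝕜 Z]

/-- Reflexivity: every bounded functional on the dual is an evaluation. -/
def Refl (𝕜 : Type*) [RCLike 𝕜] (Z : Type*) [NormedAddCommGroup Z] [NormedSpace 𝕜 Z] : Prop :=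
  ∀ G : (Z →L[𝕜] 𝕜) →L[𝕜] 𝕜, ∃ z : Z, ∀ φ : Z →L[𝕜] 𝕜, G φ = φ z

theorem exists_wot_lim (hr : Refl 𝕜 Z) {ι : Type*} (U : Ultrafilter ι) (S : ι → Y →L[𝕜] Z)
    (C : ℝ) (hC : ∀ i, ‖S i‖ ≤ C) :
    ∃ T : Y →L[𝕜] Z, ∀ (y : Y) (φ : Z →L[𝕜] 𝕜),
      Tendsto (fun i => φ (S i y)) U (𝓝 (φ (T y))) := by
  have hlim : ∀ (y : Y) (φ : Z →L[𝕜] 𝕜), ∃ b : 𝕜, ‖b‖ ≤ ‖φ‖ * (C * ‖y‖) ∧
      Tendsto (fun i => φ (S i y)) U (𝓝 b) := by
    intro y φ
    have hmem : ∀ i, φ (S i y) ∈ Metric.closedBall (0 : 𝕜) (‖φ‖ * (C * ‖y‖)) := by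
      intro i
      rw [mem_closedBall_zero_iff]
      calc ‖φ (S i y)‖ ≤ ‖φ‖ * ‖S i y‖ := φ.le_opNorm _
        _ ≤ ‖φ‖ * (‖S i‖ * ‖y‖) := by gcongr; exact (S i).le_opNorm _
        _ ≤ ‖φ‖ * (C * ‖y‖) := by gcongr; exact hC i
    obtain ⟨b, hb, hb'⟩ := (isCompact_closedBall (0 : 𝕜) (‖φ‖ * (C * ‖y‖))).ultrafilter_le_nhds
      (U.map fun i => φ (S i y)) (by
        rw [le_principal_iff]
        exact Filter.mem_map.mpr (Filter.univ_mem' hmem))
    exact ⟨b, mem_closedBall_zero_iff.mp hb, hb'⟩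
  choose b hb1 hb2 using hlim
  have huniq : ∀ {y : Y} {φ : Z →L[𝕜] 𝕜} {c : 𝕜},
      Tendsto (fun i => φ (S i y)) U (𝓝 c) → b y φ = c :=
    fun h => tendsto_nhds_unique (hb2 _ _) h
  have hG : ∀ y : Y, ∃ G : (Z →L[𝕜] 𝕜) →L[𝕜] 𝕜, ∀ φ, G φ = b y φ := by
    intro y
    refine ⟨LinearMap.mkContinuous
      { toFun := fun φ => b y φ
        map_add' := fun φ ψ => huniq (by simpa using (hb2 y φ).add (hb2 y ψ))
        map_smul' := fun c φ => huniq (by simpa using (hb2 y φ).const_mul c) }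
      (C * ‖y‖) (fun φ => ?_), fun φ => rfl⟩
    rw [mul_comm]
    exact hb1 y φ
  choose G hG using hG
  choose T hT using fun y => hr (G y)
  have hT' : ∀ (y : Y) (φ : Z →L[𝕜] 𝕜), φ (T y) = b y φ := fun y φ => by
    rw [← hT, hG]
  refine ⟨LinearMap.mkContinuous
      { toFun := T
        map_add' := fun y y' => ?_
        map_smul' := fun c y => ?_ } C (fun y => ?_), fun y φ => ?_⟩
  · rw [SeparatingDual.eq_iff_forall_dual_eq (R := 𝕜)]
    intro φ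
    rw [map_add, hT', hT', hT']
    exact huniq (by simpa using (hb2 y φ).add (hb2 y' φ))
  · rw [SeparatingDual.eq_iff_forall_dual_eq (R := 𝕜)]
    intro φ
    rw [RingHom.id_apply, map_smul, hT', hT']
    exact huniq (by simpa using (hb2 y φ).const_mul c)
  · obtain ⟨φ, hφ, hφ'⟩ := exists_dual_vector'' 𝕜 (T y)
    have e1 : ‖T y‖ = ‖φ (T y)‖ := by rw [hφ']; simp
    change ‖T y‖ ≤ _
    rw [e1, hT']
    have hC0 : 0 ≤ C * ‖y‖ := by
      by_cases hne : Nonempty ι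
      · obtain ⟨i⟩ := hne
        exact mul_nonneg ((norm_nonneg _).trans (hC i)) (norm_nonneg _)
      · exact absurd U.neBot (by
          rw [not_nonempty_iff] at hne
          intro h
          exact h.ne (Filter.filter_eq_bot_of_isEmpty _))
    calc ‖b y φ‖ ≤ ‖φ‖ * (C * ‖y‖) := hb1 y φ
      _ ≤ 1 * (C * ‖y‖) := by gcongr
      _ = C * ‖y‖ := one_mul _
  · change Tendsto _ _ (𝓝 (φ (T y)))
    rw [hT']
    exact hb2 y φ

attribute [local instance] Ultrafilter.mul Ultrafilter.add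
attribute [local instance] Ultrafilter.semigroup Ultrafilter.addSemigroup

theorem exists_idem_ultra : ∃ p : Ultrafilter ℕ+, p + p = p :=
  exists_idempotent_of_compact_t2_of_continuous_add_left
    (fun q : Ultrafilter ℕ+ => Ultrafilter.continuous_add_left q)

/-- For an operator on a reflexive space with bounded powers there is an idempotent which is a
limit of powers along an ultrafilter. -/
theorem exists_idem_lim (hr : Refl 𝕜 Y) (A : Y →L[𝕜] Y) (hA : ‖A‖ ≤ 1) :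
    ∃ (p : Ultrafilter ℕ+) (P : Y →L[𝕜] Y), (∀ (y : Y) (φ : Y →L[𝕜] 𝕜),
      Tendsto (fun n : ℕ+ => φ ((A ^ (n : ℕ)) y)) p (𝓝 (φ (P y)))) ∧ ∀ y, P (P y) = P y := by
  obtain ⟨p, hp⟩ := exists_idem_ultra
  have hpow : ∀ n : ℕ, ‖A ^ n‖ ≤ 1 := by
    intro n
    rcases Nat.eq_zero_or_pos n with rfl | hn
    · rw [pow_zero]; exact ContinuousLinearMap.norm_id_le
    · exact (norm_pow_le' A hn).trans (pow_le_one₀ (norm_nonneg _) hA)
  obtain ⟨P, hP⟩ := exists_wot_lim hr p (fun n : ℕ+ => A ^ (n : ℕ)) 1 (fun n => hpow n)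
  refine ⟨p, P, hP, fun y => ?_⟩
  rw [SeparatingDual.eq_iff_forall_dual_eq (R := 𝕜)]
  intro φ
  refine tendsto_nhds_unique (hP (P y) φ) ?_
  rw [Metric.tendsto_nhds]
  intro ε hε
  have h1 : ∀ᶠ k : ℕ+ in ((p + p : Ultrafilter ℕ+) : Filter ℕ+),
      dist (φ ((A ^ (k : ℕ)) y)) (φ (P y)) < ε / 2 := by
    rw [hp]
    exact (Metric.tendsto_nhds.mp (hP y φ)) (ε / 2) (by positivity)
  rw [Ultrafilter.eventually_add] at h1
  filter_upwards [h1] with n hn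
  have h2 : Tendsto (fun m : ℕ+ => φ ((A ^ ((n + m : ℕ+) : ℕ)) y)) p
      (𝓝 (φ ((A ^ (n : ℕ)) (P y)))) := by
    have := hP y (φ.comp (A ^ (n : ℕ)))
    refine this.congr fun m => ?_
    rw [PNat.add_coe, pow_add]
    rfl
  have h3 : dist (φ ((A ^ (n : ℕ)) (P y))) (φ (P y)) ≤ ε / 2 := by
    refine le_of_tendsto (h2.dist tendsto_const_nhds) ?_
    filter_upwards [hn] with m hm
    exact hm.le
  linarith

end Pool.Agent.Helper130.Odell
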