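import Pool.Agent.Helper130.Odell.Proj
import Pool.Agent.Helper130.Odell.Wot

set_option autoImplicit false

open Filter Topology

namespace Pool.Agent.Helper130.Odell

variable {𝕜 : Type*} [RCLike 𝕜]


theorem TX.sub_proj (N : ℕ) (x : TX 𝕜) :
    x - TX.proj (fun n => n < N) x = TX.proj (fun n => N ≤ n) x := by
  refine TX.ext fun n => ?_
  rw [map_sub, Pi.sub_apply, TX.proj_val, TX.proj_val]
  by_cases h : n < N
  · simp [h, not_le.2 h]
  · simp [h, not_lt.1 h]

theorem TX.exists_block (x : TX 𝕜) (d : ℝ) (hd : 0 ≤ d) (N : ℕ)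
    (h : d < ‖TX.proj (fun n => N ≤ n) x‖ ^ 2) :
    ∃ M, N < M ∧ d < ‖TX.proj (fun n => N ≤ n ∧ n < M) x‖ ^ 2 := by
  obtain ⟨w, hw, hlt⟩ := TX.exists_pair h
  obtain ⟨M, hM⟩ := w.support.exists_nat_subset_range
  have h1 : pair w (sq (TX.proj (fun n => N ≤ n) x).val) =
      pair w (sq (TX.proj (fun n => N ≤ n ∧ n < M) x).val) := by
    refine pair_of_support fun n hn => ?_
    have hnM : n < M := Finset.mem_range.1 (hM hn)
    unfold sq
    rw [TX.proj_val, TX.proj_val]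
    simp [hnM]
  rw [h1] at hlt
  have h2 := TX.pair_le (TX.proj (fun n => N ≤ n ∧ n < M) x) hw
  have h3 : d < ‖TX.proj (fun n => N ≤ n ∧ n < M) x‖ ^ 2 := lt_of_lt_of_le hlt h2
  refine ⟨M, ?_, h3⟩
  by_contra hcon
  have hz : TX.proj (fun n => N ≤ n ∧ n < M) x = 0 := by
    refine TX.ext fun n => ?_
    rw [TX.proj_val, map_zero, Pi.zero_apply, if_neg]
    rintro ⟨h4, h5⟩
    omega
  rw [hz, norm_zero] at h3
  norm_num at h3
  linarith

theorem TX.tail_small (x : TX 𝕜) (d : ℝ) (hd : 0 < d) :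
    ∃ N, ‖TX.proj (fun n => N ≤ n) x‖ ^ 2 ≤ d := by
  classical
  by_contra hcon
  push Not at hcon
  choose f hf1 hf2 using fun N => TX.exists_block x d hd.le N (hcon N)
  have hbound : ∀ k : ℕ, ((k : ℝ) + 1) * d ≤ 2 * ‖x‖ ^ 2 := by
    intro k
    let g : ℕ → ℕ := fun i => f^[i] (k + 1)
    have hg : ∀ i, g (i + 1) = f (g i) := fun i => Function.iterate_succ_apply' f i (k + 1)
    have hmono : StrictMono g := strictMono_nat_of_lt_succ fun i => by
      rw [hg]; exact hf1 _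
    have hg0 : ∀ i, k + 1 ≤ g i := fun i => by
      have := hmono.monotone (Nat.zero_le i)
      exact this
    let c : ℕ → Fin (k + 1) := fun n =>
      if h : ∃ i : Fin (k + 1), g i ≤ n ∧ n < g (i + 1) then h.choose else 0
    have hc : ∀ (i : Fin (k + 1)) (n : ℕ), g i ≤ n → n < g (i + 1) → c n = i := by
      intro i n h1 h2
      have hex : ∃ i : Fin (k + 1), g i ≤ n ∧ n < g (i + 1) := ⟨i, h1, h2⟩
      have hc' : c n = hex.choose := dif_pos hex
      obtain ⟨h3, h4⟩ := hex.choose_spec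
      rw [hc']
      apply Fin.ext
      by_contra hne
      rcases lt_or_gt_of_ne hne with hlt | hlt
      · have := hmono.monotone (Nat.succ_le_of_lt hlt)
        have h5 : g ((hex.choose : ℕ) + 1) ≤ g i := this
        omega
      · have := hmono.monotone (Nat.succ_le_of_lt hlt)
        have h5 : g ((i : ℕ) + 1) ≤ g hex.choose := this
        omega
    let y := TX.proj (fun n => k + 1 ≤ n) x
    have hy := TX.lower (k + 1) (by simp) y c (fun n hn => by
      show (TX.proj (fun n => k + 1 ≤ n) x).val n = 0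
      rw [TX.proj_val, if_neg (not_le.2 hn)])
    have hterm : ∀ i : Fin (k + 1), d ≤ ‖TX.proj (fun n => c n = i) y‖ ^ 2 := by
      intro i
      have h1 : ‖TX.proj (fun n => g i ≤ n ∧ n < g (i + 1)) x‖ ≤
          ‖TX.proj (fun n => c n = i) y‖ := by
        refine TX.norm_mono fun n => ?_
        rw [TX.proj_val, TX.proj_val]
        show _ ≤ ‖if c n = i then (TX.proj (fun n => k + 1 ≤ n) x).val n else 0‖
        rw [TX.proj_val]
        by_cases h : g i ≤ n ∧ n < g (i + 1)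
        · rw [if_pos h, if_pos (hc i n h.1 h.2), if_pos ((hg0 i).trans h.1)]
        · rw [if_neg h, norm_zero]
          exact norm_nonneg _
      have h2 : d < ‖TX.proj (fun n => g i ≤ n ∧ n < g (i + 1)) x‖ ^ 2 := by
        have := hf2 (g i)
        have h3 : (fun n => g (i : ℕ) ≤ n ∧ n < g ((i : ℕ) + 1)) =
            (fun n => g (i : ℕ) ≤ n ∧ n < f (g i)) := by
          rw [hg]
        have h4 : TX.proj (fun n => g (i : ℕ) ≤ n ∧ n < g ((i : ℕ) + 1)) x =
            TX.proj (fun n => g (i : ℕ) ≤ n ∧ n < f (g i)) x := by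
          refine TX.ext fun n => ?_
          rw [TX.proj_val, TX.proj_val, hg]
        rw [h4]
        exact this
      exact h2.le.trans (pow_le_pow_left₀ (norm_nonneg _) h1 2)
    have hsum : ((k : ℝ) + 1) * d ≤ ∑ i : Fin (k + 1), ‖TX.proj (fun n => c n = i) y‖ ^ 2 := by
      calc ((k : ℝ) + 1) * d = ∑ _i : Fin (k + 1), d := by
            rw [Finset.sum_const, Finset.card_univ, Fintype.card_fin, nsmul_eq_mul]
            push_cast
            ring
        _ ≤ _ := Finset.sum_le_sum fun i _ => hterm i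
    have hyx : ‖y‖ ^ 2 ≤ ‖x‖ ^ 2 := pow_le_pow_left₀ (norm_nonneg _) (TX.proj_le _ x) 2
    linarith
  obtain ⟨k, hk⟩ := exists_nat_gt (2 * ‖x‖ ^ 2 / d)
  have h1 := hbound k
  rw [div_lt_iff₀ hd] at hk
  nlinarith

theorem TX.tendsto_proj (x : TX 𝕜) :
    Tendsto (fun N => TX.proj (fun n => n < N) x) atTop (𝓝 x) := by
  rw [Metric.tendsto_atTop]
  intro ε hε
  obtain ⟨N, hN⟩ := TX.tail_small x ((ε / 2) ^ 2) (by positivity)
  refine ⟨N, fun M hM => ?_⟩
  rw [dist_comm, dist_eq_norm, TX.sub_proj]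
  have h1 : ‖TX.proj (fun n => M ≤ n) x‖ ≤ ‖TX.proj (fun n => N ≤ n) x‖ := by
    refine TX.norm_mono fun n => ?_
    rw [TX.proj_val, TX.proj_val]
    by_cases h : M ≤ n
    · rw [if_pos h, if_pos (hM.trans h)]
    · rw [if_neg h, norm_zero]; exact norm_nonneg _
  have h2 : ‖TX.proj (fun n => N ≤ n) x‖ ≤ ε / 2 :=
    (pow_le_pow_iff_left₀ (norm_nonneg _) (by positivity) two_ne_zero).1 hN
  linarith

theorem TX.exists_vec (φ : TX 𝕜 →L[𝕜] 𝕜) (ε : ℝ) (hε : 0 < ε)
    (h : ∀ N, ∃ x : TX 𝕜, (∀ n, n < N → x.val n = 0) ∧ ε * ‖x‖ < ‖φ x‖) (N : ℕ) :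
    ∃ M z, N ≤ M ∧ (∀ n, (n < N ∨ M ≤ n) → (z : TX 𝕜).val n = 0) ∧ ‖z‖ ≤ 1 ∧ φ z = (ε : 𝕜) := by
  obtain ⟨x, hx, hlt⟩ := h N
  have ht : Tendsto (fun M => ‖φ (TX.proj (fun n => n < M) x)‖) atTop (𝓝 ‖φ x‖) :=
    ((φ.continuous.tendsto x).comp (TX.tendsto_proj x)).norm
  obtain ⟨M, hM1, hM2⟩ := ((ht.eventually (lt_mem_nhds hlt)).and (eventually_ge_atTop N)).exists
  set x' := TX.proj (fun n => n < M) x with hx'
  have hx'le : ‖x'‖ ≤ ‖x‖ := TX.proj_le _ x
  have hpos : 0 < ‖φ x'‖ := lt_of_le_of_lt (by positivity) hM1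
  have hne : φ x' ≠ 0 := norm_pos_iff.1 hpos
  refine ⟨M, ((ε : 𝕜) / φ x') • x', hM2, ?_, ?_, ?_⟩
  · intro n hn
    rw [map_smul, Pi.smul_apply, hx', TX.proj_val]
    rcases hn with hn | hn
    · rw [hx n hn]; simp
    · rw [if_neg (not_lt.2 hn)]; simp
  · rw [norm_smul, norm_div, RCLike.norm_ofReal, abs_of_pos hε, div_mul_eq_mul_div,
      div_le_one hpos]
    calc ε * ‖x'‖ ≤ ε * ‖x‖ := mul_le_mul_of_nonneg_left hx'le hε.le
      _ ≤ ‖φ x'‖ := hM1.le
  · rw [map_smul, smul_eq_mul, div_mul_cancel₀ _ hne]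

theorem TX.shrink (φ : TX 𝕜 →L[𝕜] 𝕜) (ε : ℝ) (hε : 0 < ε) :
    ∃ N, ∀ x : TX 𝕜, (∀ n, n < N → x.val n = 0) → ‖φ x‖ ≤ ε * ‖x‖ := by
  by_contra hcon
  push Not at hcon
  choose f z hf1 hz1 hz2 hz3 using TX.exists_vec φ ε hε hcon
  let g : ℕ → ℕ := fun i => f^[i] 0
  have hg : ∀ i, g (i + 1) = f (g i) := fun i => Function.iterate_succ_apply' f i 0
  have key : ∀ r : ℕ, ∃ S : TX 𝕜, (∀ n, g r ≤ n → S.val n = 0) ∧ ‖S‖ ^ 2 ≤ r ∧
      φ S = ((r : ℝ) * ε : ℝ) := by
    intro r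
    induction r with
    | zero => exact ⟨0, fun n _ => by simp, by simp, by simp⟩
    | succ r ih =>
      obtain ⟨S, h1, h2, h3⟩ := ih
      refine ⟨S + z (g r), ?_, ?_, ?_⟩
      · intro n hn
        rw [hg] at hn
        rw [map_add, Pi.add_apply, h1 n ((hf1 _).trans hn), hz1 (g r) n (Or.inr hn), add_zero]
      · have h4 : ‖S + z (g r)‖ ^ 2 ≤ ‖S‖ ^ 2 + ‖z (g r)‖ ^ 2 := by
          refine TX.upper fun n => ?_
          by_cases h : g r ≤ n
          · exact Or.inl (h1 n h)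
          · exact Or.inr (hz1 (g r) n (Or.inl (not_le.1 h)))
        have h5 : ‖z (g r)‖ ^ 2 ≤ 1 := by
          have := hz2 (g r)
          have h0 := norm_nonneg (z (g r))
          nlinarith
        push_cast
        linarith
      · rw [map_add, h3, hz3]
        push_cast
        ring
  have hb : ∀ r : ℕ, 1 ≤ r → (r : ℝ) * ε ^ 2 ≤ ‖φ‖ ^ 2 := by
    intro r hr
    obtain ⟨S, -, h2, h3⟩ := key r
    have hr0 : (0 : ℝ) < r := by exact_mod_cast hr
    have h4 : (r : ℝ) * ε ≤ ‖φ‖ * ‖S‖ := by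
      have := φ.le_opNorm S
      rw [h3, RCLike.norm_ofReal, abs_of_pos (by positivity)] at this
      exact this
    have h5 : ((r : ℝ) * ε) ^ 2 ≤ (‖φ‖ * ‖S‖) ^ 2 := pow_le_pow_left₀ (by positivity) h4 2
    have h6 : (‖φ‖ * ‖S‖) ^ 2 ≤ ‖φ‖ ^ 2 * r := by
      rw [mul_pow]
      exact mul_le_mul_of_nonneg_left h2 (by positivity)
    have h7 : (r : ℝ) * (r * ε ^ 2) ≤ r * ‖φ‖ ^ 2 := by nlinarith
    exact le_of_mul_le_mul_left h7 hr0
  obtain ⟨r, hr⟩ := exists_nat_gt (‖φ‖ ^ 2 / ε ^ 2)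
  have hε2 : 0 < ε ^ 2 := by positivity
  rw [div_lt_iff₀ hε2] at hr
  have h1 := hb (r + 1) (by omega)
  push_cast at h1
  nlinarith

theorem TX.norm_phi_le (w : ℕ →₀ ℝ) (hw : KK w) (x : ℕ → 𝕜) (y : TX 𝕜) :
    ‖∑ n ∈ w.support, ((w n : 𝕜) * (starRingEnd 𝕜) (x n)) * y.val n‖ ≤
      ‖vec w x‖ * ‖y‖ := by
  have h1 : ∑ n ∈ w.support, ((w n : 𝕜) * (starRingEnd 𝕜) (x n)) * y.val n =
      inner 𝕜 (vec w x) (vec w y.val) := by
    rw [PiLp.inner_apply, ← Finset.sum_coe_sort w.support]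
    refine Finset.sum_congr rfl fun n _ => ?_
    have h2 : (vec w x) n = ((Real.sqrt (w n) : ℝ) : 𝕜) * x n := rfl
    have h3 : (vec w y.val) n = ((Real.sqrt (w n) : ℝ) : 𝕜) * y.val n := rfl
    rw [h2, h3, RCLike.inner_apply, map_mul, RCLike.conj_ofReal]
    have h4 : (w n : 𝕜) = ((Real.sqrt (w n) : ℝ) : 𝕜) * ((Real.sqrt (w n) : ℝ) : 𝕜) := by
      rw [← RCLike.ofReal_mul, Real.mul_self_sqrt (hw.nonneg n)]
    rw [h4]
    ring
  rw [h1]
  exact (norm_inner_le_norm _ _).trans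
    (mul_le_mul_of_nonneg_left (y.vec_le hw) (norm_nonneg _))

theorem TX.refl_isX (G : (TX 𝕜 →L[𝕜] 𝕜) →L[𝕜] 𝕜) : IsX (fun n => G (TX.coord n)) := by
  refine ⟨‖G‖ ^ 2, fun w hw => ?_⟩
  set x : ℕ → 𝕜 := fun n => G (TX.coord n) with hx
  let φ : TX 𝕜 →L[𝕜] 𝕜 := ∑ n ∈ w.support, ((w n : 𝕜) * (starRingEnd 𝕜) (x n)) • TX.coord n
  have hφ : ‖φ‖ ≤ ‖vec w x‖ := by
    refine ContinuousLinearMap.opNorm_le_bound _ (norm_nonneg _) fun y => ?_
    have : φ y = ∑ n ∈ w.support, ((w n : 𝕜) * (starRingEnd 𝕜) (x n)) * y.val n := by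
      simp only [φ, ContinuousLinearMap.sum_apply, ContinuousLinearMap.smul_apply, TX.coord_apply,
        smul_eq_mul]
    rw [this]
    exact TX.norm_phi_le w hw x y
  have hG : G φ = ((pair w (sq x) : ℝ) : 𝕜) := by
    simp only [φ, map_sum, map_smul, smul_eq_mul]
    unfold pair Finsupp.sum sq
    push_cast
    refine Finset.sum_congr rfl fun n _ => ?_
    rw [mul_assoc]
    congr 1
    rw [← RCLike.conj_mul]
  have h1 : pair w (sq x) ≤ ‖G‖ * ‖vec w x‖ := by
    have h2 := G.le_opNorm φ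
    rw [hG, RCLike.norm_ofReal, abs_of_nonneg (pair_sq_nonneg hw.nonneg x)] at h2
    exact h2.trans (mul_le_mul_of_nonneg_left hφ (norm_nonneg _))
  rw [← norm_vec_sq hw.nonneg] at h1 ⊢
  have h3 := norm_nonneg (vec w x)
  have h4 := norm_nonneg G
  have h5 : ‖vec w x‖ ≤ ‖G‖ := by
    by_contra hcon
    push Not at hcon
    nlinarith
  exact pow_le_pow_left₀ h3 h5 2

theorem TX.proj_eq_sum (N : ℕ) (x : TX 𝕜) :
    TX.proj (fun n => n < N) x = ∑ n ∈ Finset.range N, x.val n • TX.e n := by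
  refine TX.ext fun m => ?_
  rw [TX.proj_val, map_sum, Finset.sum_apply]
  simp only [map_smul, Pi.smul_apply, TX.e_val, smul_eq_mul]
  by_cases h : m < N
  · rw [if_pos h, Finset.sum_eq_single m]
    · simp
    · intro b _ hb
      simp [Pi.single_eq_of_ne hb.symm]
    · intro hm
      exact absurd (Finset.mem_range.2 h) hm
  · rw [if_neg h, Finset.sum_eq_zero]
    intro b hb
    have : m ≠ b := by
      rintro rfl
      exact h (Finset.mem_range.1 hb)
    simp [Pi.single_eq_of_ne this]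

theorem TX.refl : Refl 𝕜 (TX 𝕜) := by
  intro G
  refine ⟨TX.mk _ (TX.refl_isX G), fun φ => ?_⟩
  set z : TX 𝕜 := TX.mk _ (TX.refl_isX G) with hz
  have h1 : ∀ N, G (φ.comp (TX.proj (fun n => n < N))) = φ (TX.proj (fun n => n < N) z) := by
    intro N
    have h2 : φ.comp (TX.proj (fun n => n < N)) =
        ∑ n ∈ Finset.range N, φ (TX.e n) • (TX.coord n : TX 𝕜 →L[𝕜] 𝕜) := by
      ext y
      rw [ContinuousLinearMap.comp_apply, TX.proj_eq_sum, map_sum]
      simp only [map_smul, ContinuousLinearMap.sum_apply, ContinuousLinearMap.smul_apply,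
        TX.coord_apply, smul_eq_mul]
      exact Finset.sum_congr rfl fun n _ => mul_comm _ _
    rw [h2, map_sum, TX.proj_eq_sum, map_sum]
    refine Finset.sum_congr rfl fun n _ => ?_
    rw [map_smul, map_smul, smul_eq_mul, smul_eq_mul, mul_comm]
    rfl
  have h3 : Tendsto (fun N => φ.comp (TX.proj (fun n => n < N))) atTop (𝓝 φ) := by
    rw [Metric.tendsto_atTop]
    intro ε hε
    obtain ⟨N, hN⟩ := TX.shrink φ (ε / 2) (by positivity)
    refine ⟨N, fun M hM => ?_⟩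
    rw [dist_comm, dist_eq_norm]
    refine lt_of_le_of_lt ?_ (half_lt_self hε)
    refine ContinuousLinearMap.opNorm_le_bound _ (by positivity) fun y => ?_
    have h4 : (φ - φ.comp (TX.proj (fun n => n < M))) y = φ (TX.proj (fun n => M ≤ n) y) := by
      rw [ContinuousLinearMap.sub_apply, ContinuousLinearMap.comp_apply, ← map_sub, TX.sub_proj]
    rw [h4]
    refine (hN _ fun n hn => ?_).trans ?_
    · rw [TX.proj_val, if_neg (by omega)]
    · exact mul_le_mul_of_nonneg_left (TX.proj_le _ y) (by positivity)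
  have h5 : Tendsto (fun N => G (φ.comp (TX.proj (fun n => n < N)))) atTop (𝓝 (G φ)) :=
    (G.continuous.tendsto φ).comp h3
  have h6 : Tendsto (fun N => G (φ.comp (TX.proj (fun n => n < N)))) atTop (𝓝 (φ z)) := by
    simp only [h1]
    exact (φ.continuous.tendsto z).comp (TX.tendsto_proj z)
  exact tendsto_nhds_unique h5 h6

theorem TX.separable : TopologicalSpace.SeparableSpace (TX 𝕜) := by
  rw [← TopologicalSpace.isSeparable_univ_iff]
  have h1 : TopologicalSpace.IsSeparable (Set.range (TX.e : ℕ → TX 𝕜)) :=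
    (Set.countable_range _).isSeparable
  have h2 : TopologicalSpace.IsSeparable
      (Submodule.span 𝕜 (Set.range (TX.e : ℕ → TX 𝕜)) : Set (TX 𝕜)) := h1.span
  refine h2.closure.mono fun x _ => ?_
  refine mem_closure_of_tendsto (TX.tendsto_proj x) (Eventually.of_forall fun N => ?_)
  rw [TX.proj_eq_sum]
  refine Submodule.sum_mem _ fun n _ => Submodule.smul_mem _ _ (Submodule.subset_span ⟨n, rfl⟩)

theorem TX.not_finiteDimensional : ¬ FiniteDimensional 𝕜 (TX 𝕜) := by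
  intro h
  have hli : LinearIndependent 𝕜 (TX.e : ℕ → TX 𝕜) := by
    rw [linearIndependent_iff']
    intro s g hg i hi
    have h1 := congrArg (TX.coord i) hg
    rw [map_sum, map_zero] at h1
    simp only [map_smul, TX.coord_apply, TX.e_val, smul_eq_mul] at h1
    rw [Finset.sum_eq_single i] at h1
    · simpa using h1
    · intro b _ hb
      simp [Pi.single_eq_of_ne hb.symm]
    · intro hn
      exact absurd hi hn
  exact Module.Finite.not_linearIndependent_of_infinite _ hli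

end Pool.Agent.Helper130.Odell
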